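import Pool.Agent.H25.AB.NoInv

/-! Minimal configurations with finite centres. -/

namespace H25.AB

open Subgroup Pointwise H36.CH

/-- If the centre of `A` is finite then the outer elements of `A` invert the divisible part. -/
theorem pmi_of_center_finite {G : Type} [Group G] {A A0 P : Subgroup G} (h : Side A A0 P)
    (hfin : {u : G | u ∈ A ∧ ∀ x ∈ A, x * u = u * x}.Finite) : PMi A P := by
  classical
  intro t ht
  by_cases ht0 : t ∈ A0
  · left
    intro p hp
    rw [h.comm0 t ht0 p (h.le_A0 hp), mul_inv_cancel_right]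
  · right
    have hsq := h.sq ht ht0
    -- the products `p * p ^ t` are central
    have hP : ∀ p ∈ P, t * p * t⁻¹ ∈ P := fun p hp => (h.dp.le_Nz ht p hp).1
    have hcomm : ∀ p ∈ P, ∀ q ∈ P, p * q = q * p := h.dp.dc.comm
    have hsqc : ∀ p ∈ P, t * (t * p * t⁻¹) * t⁻¹ = p := by
      intro p hp
      have h1 := hsq.2 p (h.dp.le hp)
      calc t * (t * p * t⁻¹) * t⁻¹ = (t * t) * p * (t * t)⁻¹ := by group
        _ = p * (t * t) * (t * t)⁻¹ := by rw [h1]
        _ = p := by rw [mul_inv_cancel_right]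
    have hcen : ∀ p ∈ P, ∀ x ∈ A, x * (p * (t * p * t⁻¹)) = (p * (t * p * t⁻¹)) * x := by
      intro p hp x hx
      have hpp : p * (t * p * t⁻¹) ∈ P := P.mul_mem hp (hP p hp)
      have ht1 : t * (p * (t * p * t⁻¹)) = (p * (t * p * t⁻¹)) * t := by
        calc t * (p * (t * p * t⁻¹)) = (t * p * t⁻¹) * (t * (t * p * t⁻¹) * t⁻¹) * t := by group
          _ = (t * p * t⁻¹) * p * t := by rw [hsqc p hp]
          _ = _ := by rw [hcomm _ (hP p hp) p hp]
      by_cases hx0 : x ∈ A0
      · exact h.comm0 x hx0 _ (h.le_A0 hpp)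
      · have hti : t⁻¹ ∉ A0 := fun h2 => ht0 (by simpa using A0.inv_mem h2)
        have h2 : x * t⁻¹ ∈ A0 := h.idx x hx _ (A.inv_mem ht) hx0 hti
        have h3 := h.comm0 _ h2 _ (h.le_A0 hpp)
        generalize p * (t * p * t⁻¹) = y at ht1 h3
        calc x * y = (x * t⁻¹) * (t * y) := by group
          _ = (x * t⁻¹) * (y * t) := by rw [ht1]
          _ = ((x * t⁻¹) * y) * t := by group
          _ = (y * (x * t⁻¹)) * t := by rw [h3]
          _ = y * x := by group
    intro p hp
    -- a finite subgroup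
    let R : Subgroup G :=
      { carrier := {u | u ∈ P ∧ ∀ x ∈ A, x * u = u * x}
        one_mem' := ⟨P.one_mem, fun x _ => by rw [mul_one, one_mul]⟩
        mul_mem' := by
          rintro u v ⟨hu, hu1⟩ ⟨hv, hv1⟩
          refine ⟨P.mul_mem hu hv, ?_⟩
          intro x hx
          rw [← mul_assoc, hu1 x hx, mul_assoc, hv1 x hx, ← mul_assoc]
        inv_mem' := by
          rintro u ⟨hu, hu1⟩
          refine ⟨P.inv_mem hu, ?_⟩
          intro x hx
          exact ((show Commute x u from hu1 x hx).inv_right).eq }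
    have hRfin : (R : Set G).Finite := by
      refine hfin.subset ?_
      rintro u ⟨hu, hu1⟩
      exact ⟨h.dp.le hu, hu1⟩
    have hF : Finite ↥R := hRfin.to_subtype
    obtain ⟨r, hr, hrp⟩ := h.dp.dc.div p hp (Nat.card ↥R) Nat.card_pos
    have hrR : r * (t * r * t⁻¹) ∈ R := ⟨P.mul_mem hr (hP r hr), hcen r hr⟩
    have hpow : (r * (t * r * t⁻¹)) ^ Nat.card ↥R = 1 := by
      have h3 : (⟨r * (t * r * t⁻¹), hrR⟩ : ↥R) ^ Nat.card ↥R = 1 := pow_card_eq_one'
      exact congrArg Subtype.val h3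
    have h4 : r ^ Nat.card ↥R * (t * r * t⁻¹) ^ Nat.card ↥R = 1 := by
      rw [← (show Commute r (t * r * t⁻¹) from hcomm r hr _ (hP r hr)).mul_pow]
      exact hpow
    rw [conj_pow, hrp] at h4
    exact (inv_eq_of_mul_eq_one_right h4).symm

/-- There is no minimal configuration with finite centres. -/
theorem false_of_centers_finite {G : Type} [Group G] {A A0 P B B0 Q : Subgroup G}
    (h : Cfg A A0 P B B0 Q)
    (hA : {u : G | u ∈ A ∧ ∀ x ∈ A, x * u = u * x}.Finite)
    (hB : {u : G | u ∈ B ∧ ∀ x ∈ B, x * u = u * x}.Finite) : False := by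
  have h1 := pmi_of_center_finite h.hyp.sa hA
  have h2 := pmi_of_center_finite h.hyp.sb hB
  exact core_pm h h1 h2 (noInv h h1) (noInv h.symm h2)

theorem cls_true : Cls (fun _ _ _ _ _ _ => True) where
  sub := fun _ _ _ _ _ _ _ _ _ _ _ _ _ _ => trivial
  map := fun _ _ _ _ _ _ _ _ _ _ => trivial

/-- If the centre of the first factor is finite in every minimal configuration then the divisible
parts commute. -/
theorem comm_of_center_finite
    (hT : ∀ (G : Type) [Group G] (A A0 P B B0 Q : Subgroup G), Cfg A A0 P B B0 Q →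
      {u : G | u ∈ A ∧ ∀ x ∈ A, x * u = u * x}.Finite)
    (G : Type) [Group G] (A A0 P B B0 Q : Subgroup G) (h : Hyp A A0 P B B0 Q) :
    ∀ x ∈ P, ∀ y ∈ Q, x * y = y * x := by
  refine reduction cls_true ?_ G A A0 P B B0 Q h trivial
  intro G _ A A0 P B B0 Q h _
  exact false_of_centers_finite h (hT G A A0 P B B0 Q h) (hT G B B0 Q A A0 P h.symm)

end H25.AB
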