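import Pool.Agent.H25.AB.Pm2

/-! No minimal configuration in which the factors centralise or invert the divisible parts and
in which no involution of a normaliser inverts. -/

namespace H25.AB

open Subgroup Pointwise H36.CH

variable {G : Type} [Group G] {A A0 P B B0 Q : Subgroup G}

/-- A factor which is larger than its abelian subgroup has an involution outside of it or a
central involution inside. -/
theorem outside_or_central (h : Side A A0 P) {t : G} (ht : t ∈ A) (ht0 : t ∉ A0) :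
    (∃ s ∈ A, s ∉ A0 ∧ s * s = 1) ∨
      ∃ u ∈ A0, u * u = 1 ∧ u ≠ 1 ∧ ∀ a ∈ A, a * u = u * a := by
  obtain ⟨n, hn, hn1⟩ := h.dp.torsion ht
  -- write `n = 2 ^ k * m` with `m` odd
  obtain ⟨k, m, hm, hnk⟩ := Nat.exists_eq_two_pow_mul_odd hn.ne'
  -- odd powers of `t` are outside
  have hodd : ∀ j : ℕ, Odd j → t ^ j ∉ A0 := by
    rintro j ⟨i, rfl⟩ hmem
    apply ht0
    have h1 : (t * t) ^ i ∈ A0 := A0.pow_mem (h.sq ht ht0).1 i
    have h2 : t ^ (2 * i + 1) = (t * t) ^ i * t := by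
      rw [pow_succ, pow_mul, pow_two]
    rw [h2] at hmem
    have h3 := A0.mul_mem (A0.inv_mem h1) hmem
    rwa [inv_mul_cancel_left] at h3
  set s := t ^ m with hs
  have hsA : s ∈ A := A.pow_mem ht m
  have hs0 : s ∉ A0 := hodd m hm
  have hsk : s ^ 2 ^ k = 1 := by
    rw [hs, ← pow_mul, mul_comm, ← hnk]
    exact hn1
  classical
  have hex : ∃ k : ℕ, s ^ 2 ^ k = 1 := ⟨k, hsk⟩
  have h1 := Nat.find_spec hex
  have h0 : Nat.find hex ≠ 0 := by
    intro h0
    rw [h0, pow_zero, pow_one] at h1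
    apply hs0
    rw [h1]
    exact A0.one_mem
  obtain ⟨r, hr⟩ := Nat.exists_eq_succ_of_ne_zero h0
  have h2 : s ^ 2 ^ r ≠ 1 := Nat.find_min hex (by omega)
  have h3 : s ^ 2 ^ r * s ^ 2 ^ r = 1 := by
    rw [← pow_add, ← two_mul, ← pow_succ']
    rw [hr] at h1
    exact h1
  rcases Nat.eq_zero_or_pos r with hr0 | hr0
  · left
    refine ⟨s, hsA, hs0, ?_⟩
    rw [hr0, pow_zero, pow_one] at h3
    exact h3
  · right
    obtain ⟨r', rfl⟩ := Nat.exists_eq_succ_of_ne_zero hr0.ne'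
    have hsq := h.sq hsA hs0
    have h4 : s ^ 2 ^ (r' + 1) = (s * s) ^ 2 ^ r' := by
      rw [pow_succ', pow_mul, pow_two]
    refine ⟨s ^ 2 ^ (r' + 1), ?_, h3, h2, ?_⟩
    · rw [h4]; exact A0.pow_mem hsq.1 _
    · intro a ha
      rw [h4]
      have c1 : Commute a (s * s) := hsq.2 a ha
      exact (c1.pow_right _).eq

/-- In a minimal configuration the factors are larger than their abelian subgroups. -/
theorem exists_outside (h : Cfg A A0 P B B0 Q) : ∃ t ∈ A, t ∉ A0 := by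
  by_contra hno
  push Not at hno
  exact core_abelian h hno

/-- The divisible part contains an element which is not of order two. -/
theorem exists_not_two (h : Cfg A A0 P B B0 Q) : ∃ p ∈ P, p⁻¹ ≠ p := by
  by_contra hno
  push Not at hno
  apply h.infP
  have : P = ⊥ := by
    rw [eq_bot_iff]
    intro x hx
    rw [Subgroup.mem_bot]
    obtain ⟨y, hy, rfl⟩ := h.hyp.sa.dp.dc.div x hx 2 two_pos
    have h1 := hno y hy
    rw [pow_two]
    nth_rewrite 1 [← h1]
    exact inv_mul_cancel y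
  rw [this]
  simp

/-- The main case: an element of `A` inverts `P`. -/
theorem core_inv (h : Cfg A A0 P B B0 Q) (hA : PMi A P) (hB : PMi B Q) (tA : NoInv P)
    (tB : NoInv Q) {t : G} (ht : t ∈ A) (hti : ∀ p ∈ P, t * p * t⁻¹ = p⁻¹) : False := by
  have hPA0 : P ≤ A0 := h.hyp.sa.le_A0
  have ht0 : t ∉ A0 := by
    intro ht0
    obtain ⟨p, hp, hpp⟩ := exists_not_two h
    apply hpp
    rw [← hti p hp, h.hyp.sa.comm0 t ht0 p (hPA0 hp), mul_inv_cancel_right]
  -- no involution of `A` is outside of `A0`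
  have hnoA : ∀ a ∈ A, a ∉ A0 → a * a ≠ 1 := by
    intro a ha ha0 haa
    refine tA a (h.hyp.sa.dp.le_Nz ha) haa ?_
    intro p hp
    exact h.hyp.sa.inv_all ht ht0 (hPA0 hp) (hti p hp) ha ha0
  obtain ⟨u, hu, hu2, hu1, huc⟩ :
      ∃ u ∈ A0, u * u = 1 ∧ u ≠ 1 ∧ ∀ a ∈ A, a * u = u * a := by
    rcases outside_or_central h.hyp.sa ht ht0 with ⟨s, hs, hs0, hs2⟩ | h1
    · exact absurd hs2 (hnoA s hs hs0)
    · exact h1
  -- an involution of `B` outside of `B0`
  obtain ⟨s, hs, hs0, hs2⟩ : ∃ s ∈ B, s ∉ B0 ∧ s * s = 1 := by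
    obtain ⟨b, hb, hb0⟩ := exists_outside h.symm
    rcases outside_or_central h.hyp.sb hb hb0 with h1 | ⟨z, hz, hz2, hz1, hzc⟩
    · exact h1
    · exact (not_both h hA hB tA tB hu hu2 hu1 huc hz hz2 hz1 hzc).elim
  have hQB0 : Q ≤ B0 := h.hyp.sb.le_A0
  have hsi0 : s⁻¹ ∉ B0 := fun h2 => hs0 (by simpa using B0.inv_mem h2)
  have hsQ : ∀ q ∈ Q, s * q * s⁻¹ = q := by
    rcases hB s hs with h1 | h1
    · exact h1
    · exact (tB s (h.hyp.sb.dp.le_Nz hs) hs2 h1).elim
  have hsne : s ≠ 1 := fun h1 => hs0 (by rw [h1]; exact B0.one_mem)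
  -- the class of `s` in `B` is finite
  have hKfin : {y | ∃ b ∈ B, y = b⁻¹ * s * b}.Finite := by
    obtain ⟨T, hT, hTr⟩ := exists_reps h.hyp.sb.dp.fin
    refine (T.finite_toSet.image (fun c => c * s * c⁻¹)).subset ?_
    rintro y ⟨b, hb, rfl⟩
    obtain ⟨c, hc, hcb⟩ := hTr b⁻¹ (B.inv_mem hb)
    refine ⟨c, hc, ?_⟩
    have h1 : s * (c⁻¹ * b⁻¹) = (c⁻¹ * b⁻¹) * s := by
      have := hsQ _ hcb
      rw [mul_inv_eq_iff_eq_mul] at this
      exact this
    show c * s * c⁻¹ = b⁻¹ * s * b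
    calc c * s * c⁻¹ = c * (s * (c⁻¹ * b⁻¹)) * b := by group
      _ = c * ((c⁻¹ * b⁻¹) * s) * b := by rw [h1]
      _ = _ := by group
  -- the conjugates of `s` normalise `P`
  have hKN : ∀ b ∈ B, b⁻¹ * s * b ∈ Nz P := by
    intro b hb
    set k := b⁻¹ * s * b with hk
    have hkB : k ∈ B := B.mul_mem (B.mul_mem (B.inv_mem hb) hs) hb
    have hk2 : k * k = 1 := by
      rw [hk]
      calc b⁻¹ * s * b * (b⁻¹ * s * b) = b⁻¹ * (s * s) * b := by group
        _ = 1 := by rw [hs2, mul_one, inv_mul_cancel]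
    have hk0 : k ∉ B0 := by
      intro h1
      apply hs0
      have h2 := h.hyp.sb.conj0 hb h1
      have h3 : b * k * b⁻¹ = s := by rw [hk]; group
      rwa [h3] at h2
    have hKfin' : {y | ∃ c ∈ B, y = c⁻¹ * k * c}.Finite := by
      refine hKfin.subset ?_
      rintro y ⟨c, hc, rfl⟩
      exact ⟨b * c, B.mul_mem hb hc, by rw [hk]; group⟩
    obtain ⟨m0, hm0, hm01⟩ := finite_order_of_class h hu2 huc hk2 hKfin'
    have hm : 0 < orderOf (u * k) := by
      rw [orderOf_pos_iff, isOfFinOrder_iff_pow_eq_one]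
      exact ⟨m0, hm0, hm01⟩
    set m := orderOf (u * k) with hmdef
    have hρ : (u * k) ^ m = 1 := pow_orderOf_eq_one _
    have hρz : (u * k) ^ (m : ℤ) = 1 := by rw [zpow_natCast]; exact hρ
    rcases Nat.even_or_odd' m with ⟨l, hl | hl⟩
    swap
    · exfalso
      apply hu1
      refine disj_conj h (g := (u * k) ^ (l : ℤ)) (h.hyp.sa.le0 hu) ?_
      have h1 := conj_z hu2 hk2 (l : ℤ)
      have h2 : (u * k) ^ (2 * (l : ℤ)) = (u * k) ^ (-1 : ℤ) := by
        have h3 : (2 * (l : ℤ)) = (m : ℤ) + (-1) := by rw [hl]; push_cast; ring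
        rw [h3, zpow_add, hρz, one_mul]
      rw [h2, ← x_eq hk2 hu2] at h1
      have h4 : (u * k) ^ (l : ℤ) * u * ((u * k) ^ (l : ℤ))⁻¹ = k := conj_back h1
      rw [h4]
      exact hkB
    set c := (u * k) ^ (l : ℤ) with hc
    have hcc : c * c = 1 := by
      rw [hc, ← zpow_add]
      have h3 : (l : ℤ) + l = (m : ℤ) := by rw [hl]; push_cast; ring
      rw [h3, hρz]
    have hci : c⁻¹ = c := inv_eq_of_mul_eq_one_left hcc
    have hc1 : c ≠ 1 := by
      intro h1
      rw [hc, zpow_natCast] at h1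
      have h2 := orderOf_dvd_of_pow_eq_one h1
      rw [← hmdef] at h2
      have h3 : 0 < l := by omega
      have := Nat.le_of_dvd h3 h2
      omega
    have hck : c * k = k * c := by
      have h1 := zpow_conj hu2 hk2 (l : ℤ)
      rw [← hc, hci, mul_inv_eq_iff_eq_mul] at h1
      exact h1.symm
    have hcu : c * u = u * c := by
      have h1 := zpow_conj' hu2 hk2 (l : ℤ)
      rw [← hc, hci, mul_inv_eq_iff_eq_mul] at h1
      exact h1.symm
    have hcA : c ∈ A := centr_eq h hA hB tA tB hu hu1 huc hcu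
    have hcA0 : c ∈ A0 := by
      by_contra h1
      exact hnoA c hcA h1 hcc
    exact mem_Nz_of_comm h hcA0 hc1 hkB hk0 hck
  -- hence `s` is central in `B`
  have hcen : ∀ b ∈ B, b⁻¹ * s * b = s := by
    intro b hb
    set k := b⁻¹ * s * b with hk
    have hkB : k ∈ B := B.mul_mem (B.mul_mem (B.inv_mem hb) hs) hb
    have hk2 : k * k = 1 := by
      rw [hk]
      calc b⁻¹ * s * b * (b⁻¹ * s * b) = b⁻¹ * (s * s) * b := by group
        _ = 1 := by rw [hs2, mul_one, inv_mul_cancel]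
    have hk0 : k ∉ B0 := by
      intro h1
      apply hs0
      have h2 := h.hyp.sb.conj0 hb h1
      have h3 : b * k * b⁻¹ = s := by rw [hk]; group
      rwa [h3] at h2
    have hy0 : k * s ∈ B0 := h.hyp.sb.idx k hkB s hs hk0 hs0
    have hyN : k * s ∈ Nz P := by
      refine (Nz P).mul_mem (hKN b hb) ?_
      have h1 := hKN 1 B.one_mem
      rwa [inv_one, one_mul, mul_one] at h1
    have hsi : s⁻¹ = s := inv_eq_of_mul_eq_one_left hs2
    have hki : k⁻¹ = k := inv_eq_of_mul_eq_one_left hk2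
    have hinv : s * (k * s) * s⁻¹ = (k * s)⁻¹ := by
      rw [mul_inv_rev, hki, hsi]
      calc s * (k * s) * s = s * k * (s * s) := by group
        _ = s * k := by rw [hs2, mul_one]
    have h1 : k * s = 1 := by
      refine eq_one_of_normal h.symm (h.hyp.sb.le_Nz_of_inv hs hs0 hy0 hinv) ?_
        (Subgroup.mem_zpowers _)
      rw [Subgroup.zpowers_le]
      exact hyN
    have h2 : k = s⁻¹ := eq_inv_of_mul_eq_one_left h1
    rw [h2, hsi]
  -- so `B` is abelian
  have hab : ∀ x ∈ B, ∀ y ∈ B, x * y = y * x := by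
    have hdec : ∀ x ∈ B, ∃ x0 ∈ B0, (x = x0 ∨ x = x0 * s) := by
      intro x hx
      by_cases hx0 : x ∈ B0
      · exact ⟨x, hx0, Or.inl rfl⟩
      · exact ⟨x * s⁻¹, h.hyp.sb.idx x hx _ (B.inv_mem hs) hx0 hsi0, Or.inr (by group)⟩
    have hcs : ∀ b ∈ B, Commute b s := by
      intro b hb
      have h1 := hcen b hb
      have h2 : s * b = b * s := by
        calc s * b = b * (b⁻¹ * s * b) := by group
          _ = b * s := by rw [h1]
      exact h2.symm
    intro x hx y hy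
    obtain ⟨x0, hx0, hx'⟩ := hdec x hx
    obtain ⟨y0, hy0, hy'⟩ := hdec y hy
    have c1 : Commute x0 s := hcs x0 (h.hyp.sb.le0 hx0)
    have c2 : Commute y0 s := hcs y0 (h.hyp.sb.le0 hy0)
    have c3 : Commute x0 y0 := h.hyp.sb.comm0 x0 hx0 y0 hy0
    have c4 : Commute x y := by
      rcases hx' with rfl | rfl <;> rcases hy' with rfl | rfl
      · exact c3
      · exact c3.mul_right c1
      · exact c3.mul_left c2.symm
      · exact (c3.mul_right c1).mul_left (c2.symm.mul_right (Commute.refl s))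
    exact c4
  apply h.ne
  have hsideB : Side B B Q := ⟨h.hyp.sb.dp, le_rfl, hab, fun _ hx _ _ hx0 => absurd hx hx0⟩
  have hH : Hyp B B Q A A0 P := ⟨h.symm.hyp.fac, hsideB, h.hyp.sa⟩
  intro x hx y hy
  exact (comm_of_abelian G B B Q A A0 P hH le_rfl y hy x hx).symm

/-- No minimal configuration. -/
theorem core_pm (h : Cfg A A0 P B B0 Q) (hA : PMi A P) (hB : PMi B Q) (tA : NoInv P)
    (tB : NoInv Q) : False := by
  by_cases h1 : ∃ t ∈ A, ∀ p ∈ P, t * p * t⁻¹ = p⁻¹
  · obtain ⟨t, ht, hti⟩ := h1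
    exact core_inv h hA hB tA tB ht hti
  by_cases h2 : ∃ t ∈ B, ∀ p ∈ Q, t * p * t⁻¹ = p⁻¹
  · obtain ⟨t, ht, hti⟩ := h2
    exact core_inv h.symm hB hA tB tA ht hti
  · refine h.central_false (fun x hx hxB => disj h (h.hyp.sa.le0 hx) hxB) ?_ ?_
    · intro p hp x hx
      rcases hA x hx with h3 | h3
      · have := h3 p hp
        rw [mul_inv_eq_iff_eq_mul] at this
        exact this
      · exact (h1 ⟨x, hx, h3⟩).elim
    · intro q hq x hx
      rcases hB x hx with h3 | h3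
      · have := h3 q hq
        rw [mul_inv_eq_iff_eq_mul] at this
        exact this
      · exact (h2 ⟨x, hx, h3⟩).elim

end H25.AB
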