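import Pool.Agent.H25.AB.Two

/-! Divisible parts which are `2`-groups commute. -/

namespace H25.AB

open Subgroup Pointwise H36.CH

/-- `A` is Chernikov and its divisible part is a `2`-group. -/
def TwoDP {G : Type} [Group G] (A : Subgroup G) : Prop :=
  ∃ P : Subgroup G, DP A P ∧ ∀ x ∈ P, ∃ k : ℕ, x ^ 2 ^ k = 1

theorem TwoDP.sub {G : Type} [Group G] {A A' L : Subgroup G} (h : TwoDP A) (hA : A' ≤ A)
    (hL : A' ≤ L) : TwoDP (A'.subgroupOf L) := by
  obtain ⟨P, hP, h2⟩ := h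
  obtain ⟨D, hD⟩ : ∃ D : Subgroup G, DP (A' ⊓ P) D := by
    refine exists_DP ?_ (art_mono inf_le_right hP.dc.art)
    intro x hx y hy
    exact hP.dc.comm x hx.2 y hy.2
  have hD2 : DP A' D := by
    refine ⟨hD.dc, hD.le.trans inf_le_left, ?_⟩
    refine Subgroup.relIndex_ne_zero_trans hD.fin ?_
    intro h0
    refine hP.fin ?_
    refine Subgroup.relIndex_eq_zero_of_le_right hA ?_
    rw [inf_comm A' P, Subgroup.inf_relIndex_right] at h0
    exact h0
  refine ⟨D.subgroupOf L, hD2.sub hL, ?_⟩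
  intro x hx
  obtain ⟨k, hk⟩ := h2 x (hD.le hx).2
  exact ⟨k, Subtype.ext hk⟩

theorem TwoDP.map {G G' : Type} [Group G] [Group G'] {A : Subgroup G} (h : TwoDP A)
    (f : G →* G') : TwoDP (A.map f) := by
  obtain ⟨P, hP, h2⟩ := h
  refine ⟨P.map f, hP.map f, ?_⟩
  rintro _ ⟨x, hx, rfl⟩
  obtain ⟨k, hk⟩ := h2 x hx
  exact ⟨k, by rw [← map_pow, hk, map_one]⟩

theorem TwoDP.two {G : Type} [Group G] {A P : Subgroup G} (h : TwoDP A) (hP : DP A P) :
    ∀ x ∈ P, ∃ k : ℕ, x ^ 2 ^ k = 1 := by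
  obtain ⟨P', hP', h2⟩ := h
  have hle : P ≤ P' := hP.dc.le_of_relIndex
    (fun h0 => hP'.fin (Subgroup.relIndex_eq_zero_of_le_right hP.le h0))
  exact fun x hx => h2 x (hle hx)

theorem cls_two : Cls (fun _ _ A _ B _ => TwoDP A ∧ TwoDP B) where
  sub := by
    intro G _ A A0 B B0 A' B' L hC hA hB hAL hBL
    exact ⟨hC.1.sub hA hAL, hC.2.sub hB hBL⟩
  map := by
    intro G _ G' _ A A0 B B0 f hC
    exact ⟨hC.1.map f, hC.2.map f⟩

/-- A nontrivial `2`-group contains an involution. -/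
theorem exists_involution {G : Type} [Group G] {P : Subgroup G} (hne : P ≠ ⊥)
    (h : ∀ x ∈ P, ∃ k : ℕ, x ^ 2 ^ k = 1) : ∃ x ∈ P, x * x = 1 ∧ x ≠ 1 := by
  obtain ⟨⟨x, hx⟩, hx1'⟩ := (Subgroup.ne_bot_iff_exists_ne_one (H := P)).mp hne
  have hx1 : x ≠ 1 := fun h1 => hx1' (Subtype.ext h1)
  classical
  have hex := h x hx
  have h1 := Nat.find_spec hex
  have h0 : Nat.find hex ≠ 0 := by
    intro h0
    rw [h0, pow_zero, pow_one] at h1
    exact hx1 h1
  obtain ⟨n, hn⟩ := Nat.exists_eq_succ_of_ne_zero h0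
  refine ⟨x ^ 2 ^ n, P.pow_mem hx _, ?_, ?_⟩
  · rw [← pow_add, ← two_mul, ← pow_succ']
    rw [hn] at h1
    exact h1
  · exact Nat.find_min hex (by omega)

/-- The divisible parts commute if they are `2`-groups. -/
theorem comm_of_two (G : Type) [Group G] (A A0 P B B0 Q : Subgroup G)
    (h : Hyp A A0 P B B0 Q) (hA : TwoDP A) (hB : TwoDP B) :
    ∀ x ∈ P, ∀ y ∈ Q, x * y = y * x := by
  refine reduction cls_two ?_ G A A0 P B B0 Q h ⟨hA, hB⟩
  intro G _ A A0 P B B0 Q h hC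
  have hP : P ≠ ⊥ := by
    intro h1
    apply h.ne
    intro x hx y hy
    rw [h1, Subgroup.mem_bot] at hx
    rw [hx, one_mul, mul_one]
  have hQ : Q ≠ ⊥ := by
    intro h1
    apply h.ne
    intro x hx y hy
    rw [h1, Subgroup.mem_bot] at hy
    rw [hy, one_mul, mul_one]
  obtain ⟨x, hx, hx2, hx1⟩ := exists_involution hP (hC.1.two h.hyp.sa.dp)
  obtain ⟨z, hz, hz2, hz1⟩ := exists_involution hQ (hC.2.two h.hyp.sb.dp)
  exact no_involutions h hx hx2 hx1 hz hz2 hz1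

end H25.AB
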