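import Pool.Agent.H25.AB.Cnt

/-! No involution of the normaliser of `P` inverts `P`, if every element of `A` centralises or
inverts `P`. -/

namespace H25.AB

open Subgroup Pointwise H36.CH

theorem zp_ne_bot {G : Type*} [Group G] {x : G} (hx : x ≠ 1) : Subgroup.zpowers x ≠ ⊥ := by
  intro h3
  rw [Subgroup.zpowers_eq_bot] at h3
  exact hx h3

/-- Nontrivial elements of `B0` have finite centralisers in `A`. -/
theorem pm_fin_cent {G : Type} [Group G] {A A0 P B B0 Q : Subgroup G}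
    (h : Cfg A A0 P B B0 Q) (hA : PMi A P) {y : G} (hy : y ∈ B0) (hy1 : y ≠ 1) :
    {x | x ∈ A ∧ x * y = y * x}.Finite := by
  by_cases hex : ∃ x ∈ P, x ≠ 1 ∧ x * y = y * x
  · obtain ⟨x, hx, hx1, hxy⟩ := hex
    have hxA0 : x ∈ A0 := h.hyp.sa.le_A0 hx
    exact h.fin_cent_of_mem_Nz hy
      (centr_le h.symm hxA0 hx1 (hA.zpowers_Nz hx) hxy.symm) hy1
  · push Not at hex
    set L : Subgroup G := Subgroup.centralizer {y} with hL
    have hmemL : ∀ g, g ∈ L ↔ g * y = y * g := fun g => by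
      rw [hL, Subgroup.mem_centralizer_singleton_iff]
    have h1 : P.relIndex (A ⊓ L) ≠ 0 := fun h0 => h.hyp.sa.dp.fin
      (Subgroup.relIndex_eq_zero_of_le_right inf_le_left h0)
    have h2 := finite_of_relIndex h1 (Set.Finite.subset (Set.finite_singleton 1) (by
      rintro x ⟨hx, hx2⟩
      rw [Set.mem_singleton_iff]
      by_contra hx1
      exact hex x hx hx1 ((hmemL x).mp hx2.2)))
    refine h2.subset ?_
    rintro x ⟨hx, hx2⟩
    exact ⟨hx, (hmemL x).mpr hx2⟩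

/-- Fusion in the divisible part. -/
theorem pm_fusion {G : Type} [Group G] {A A0 P B B0 Q : Subgroup G}
    (h : Cfg A A0 P B B0 Q) (hA : PMi A P) {g : G} (hg : g ∉ Nz P) :
    ∀ x ∈ P, g * x * g⁻¹ ∈ P → x = 1 := by
  intro x hx hgx
  by_contra hx1
  apply hg
  refine h.fusion (h.hyp.sa.le_A0 hx) (h.hyp.sa.le_A0 hgx) ?_ (hA.zpowers_Nz hgx)
  intro h1
  apply hx1
  have h2 : x = g⁻¹ * (g * x * g⁻¹) * g := by group
  rw [h2, h1]
  group

/-- No involution of the normaliser of `P` inverts `P`. -/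
theorem noInv {G : Type} [Group G] {A A0 P B B0 Q : Subgroup G}
    (h : Cfg A A0 P B B0 Q) (hA : PMi A P) : NoInv P := by
  classical
  intro t ht htt hinv
  have hti : t⁻¹ = t := inv_eq_of_mul_eq_one_right htt
  -- the components
  choose α hα β hβ hαβ using h.hyp.fac
  have d : Dec A B α β := ⟨hα, hβ, hαβ, h.exact⟩
  have hPA : P ≤ A := h.hyp.sa.dp.le
  have hNz : P.relIndex (Nz P) ≠ 0 := (h.sub_top h.hyp.sa.dp.le_Nz h.Nz_ne_top).1
  -- an element of `B` outside of `Nz P`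
  obtain ⟨b, hb, hbP⟩ : ∃ b ∈ B, b ∉ Nz P := by
    by_contra hcon
    push Not at hcon
    apply h.Nz_ne_top
    rw [eq_top_iff]
    intro g _
    obtain ⟨a, ha, b, hb, rfl⟩ := h.hyp.fac g
    exact (Nz P).mul_mem (h.hyp.sa.dp.le_Nz ha) (hcon b hb)
  obtain ⟨R0, hR0, hR0b⟩ := exists_reps h.hyp.sa.dp.fin
  refine counting_Nz (N := Nz P) d P hPA {τ | ∃ k ∈ P, τ = t * k} ?_ ?_ t ?_ h.infP
    (R0.image (fun c => c⁻¹))
    ?_ ?_ (fun S hS => h.hyp.sa.locfin S hS) b 4 {a | a ∈ A ∧ a ∈ Nz Q} h.symm.fin_NB ?_ ?_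
  · rintro τ ⟨k, hk, rfl⟩
    exact (Nz P).mul_mem ht (h.hyp.sa.dp.le_Nz (hPA hk))
  · rintro τ ⟨k, hk, rfl⟩
    have h1 : t * k * t⁻¹ = k⁻¹ := hinv k hk
    rw [hti] at h1
    calc t * k * (t * k) = t * k * t * k := by group
      _ = 1 := by rw [h1, inv_mul_cancel]
  · intro k hk
    exact ⟨k, hk, rfl⟩
  · intro r hr
    obtain ⟨c, hc, rfl⟩ := Finset.mem_image.mp hr
    exact A.inv_mem (hR0 c hc)
  · intro a ha
    obtain ⟨c, hc, hca⟩ := hR0b a⁻¹ (A.inv_mem ha)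
    refine ⟨c⁻¹, Finset.mem_image_of_mem _ hc, ?_⟩
    rw [inv_inv]
    have h1 := P.inv_mem hca
    have h2 : (c⁻¹ * a⁻¹)⁻¹ = a * c := by group
    rw [h2] at h1
    exact h1
  · -- multiplicities
    intro p hp hpQ
    refine four_bound h.hyp.sb.le0 h.hyp.sb.idx ?_
    intro g hg hgp
    by_contra hg1
    apply hpQ
    refine ⟨hp, ?_⟩
    have h1 : p⁻¹ ∈ Nz Q := by
      refine h.mem_Nz_of_cent hg (pm_fin_cent h hA hg hg1) ?_
      rw [inv_inv]
      exact hgp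
    have h2 := (Nz Q).inv_mem h1
    rwa [inv_inv] at h2
  · -- separation
    intro x hx
    have hfin1 : {a | a ∈ A ∧ b * a * b⁻¹ ∈ Nz P}.Finite :=
      conj_fin h.hyp.sa.dp.fin hNz (pm_fusion h hA hbP)
    refine (hfin1.image (fun a => a * x)).subset ?_
    rintro x' ⟨hx', hinf⟩
    refine ⟨x' * x⁻¹, ⟨A.mul_mem hx' (A.inv_mem hx), ?_⟩, by show x' * x⁻¹ * x = x'; group⟩
    by_contra hw
    apply hinf
    set w := b * (x' * x⁻¹) * b⁻¹ with hwd
    have hfin2 : {a | a ∈ Nz P ∧ w * a * w⁻¹ ∈ Nz P}.Finite :=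
      conj_fin hNz hNz (pm_fusion h hA hw)
    refine (hfin2.image (fun a => (b * x)⁻¹ * a * (b * x))).subset ?_
    rintro g ⟨hg1, hg2⟩
    refine ⟨(b * x) * g * (b * x)⁻¹, ⟨hg1, ?_⟩, by
      show (b * x)⁻¹ * ((b * x) * g * (b * x)⁻¹) * (b * x) = g
      group⟩
    have h1 : w * ((b * x) * g * (b * x)⁻¹) * w⁻¹ = (b * x') * g * (b * x')⁻¹ := by
      rw [hwd]
      group
    rw [h1]
    exact hg2

/-- Every element of `A` centralises the divisible part of `A` or inverts it. -/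
def PM {G : Type} [Group G] (A : Subgroup G) : Prop :=
  ∃ P : Subgroup G, DP A P ∧ PMi A P

theorem PM.sub {G : Type} [Group G] {A A' L : Subgroup G} (h : PM A) (hA : A' ≤ A)
    (hL : A' ≤ L) : PM (A'.subgroupOf L) := by
  obtain ⟨P, hP, h2⟩ := h
  obtain ⟨D, hD⟩ : ∃ D : Subgroup G, DP (A' ⊓ P) D := by
    refine exists_DP ?_ (art_mono inf_le_right hP.dc.art)
    intro x hx y hy
    exact hP.dc.comm x hx.2 y hy.2
  have hD2 : DP A' D := by
    refine ⟨hD.dc, hD.le.trans inf_le_left, ?_⟩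
    refine Subgroup.relIndex_ne_zero_trans hD.fin ?_
    intro h0
    refine hP.fin ?_
    refine Subgroup.relIndex_eq_zero_of_le_right hA ?_
    rw [inf_comm A' P, Subgroup.inf_relIndex_right] at h0
    exact h0
  have hDP : D ≤ P := hD.le.trans inf_le_right
  refine ⟨D.subgroupOf L, hD2.sub hL, ?_⟩
  intro a ha
  rcases h2 a (hA ha) with h3 | h3
  · exact Or.inl (fun p hp => Subtype.ext (h3 p (hDP hp)))
  · exact Or.inr (fun p hp => Subtype.ext (h3 p (hDP hp)))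

theorem PM.map {G G' : Type} [Group G] [Group G'] {A : Subgroup G} (h : PM A)
    (f : G →* G') : PM (A.map f) := by
  obtain ⟨P, hP, h2⟩ := h
  refine ⟨P.map f, hP.map f, ?_⟩
  rintro _ ⟨a, ha, rfl⟩
  rcases h2 a ha with h3 | h3
  · refine Or.inl ?_
    rintro _ ⟨p, hp, rfl⟩
    rw [← map_inv, ← map_mul, ← map_mul, h3 p hp]
  · refine Or.inr ?_
    rintro _ ⟨p, hp, rfl⟩
    rw [← map_inv, ← map_mul, ← map_mul, h3 p hp, map_inv]

theorem PM.pmi {G : Type} [Group G] {A P : Subgroup G} (h : PM A) (hP : DP A P) : PMi A P := by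
  obtain ⟨P', hP', h2⟩ := h
  have hle : P ≤ P' := hP.dc.le_of_relIndex
    (fun h0 => hP'.fin (Subgroup.relIndex_eq_zero_of_le_right hP.le h0))
  intro a ha
  rcases h2 a ha with h3 | h3
  · exact Or.inl (fun p hp => h3 p (hle hp))
  · exact Or.inr (fun p hp => h3 p (hle hp))

theorem cls_pm : Cls (fun _ _ A _ B _ => PM A ∧ PM B) where
  sub := by
    intro G _ A A0 B B0 A' B' L hC hA hB hAL hBL
    exact ⟨hC.1.sub hA hAL, hC.2.sub hB hBL⟩
  map := by
    intro G _ G' _ A A0 B B0 f hC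
    exact ⟨hC.1.map f, hC.2.map f⟩

/-- The divisible parts commute if the elements of each factor centralise or invert its
divisible part. -/
theorem comm_of_pm (G : Type) [Group G] (A A0 P B B0 Q : Subgroup G)
    (h : Hyp A A0 P B B0 Q) (hA : PM A) (hB : PM B) :
    ∀ x ∈ P, ∀ y ∈ Q, x * y = y * x := by
  refine reduction cls_pm ?_ G A A0 P B B0 Q h ⟨hA, hB⟩
  intro G _ A A0 P B B0 Q h hC
  have h1 := hC.1.pmi h.hyp.sa.dp
  have h2 := hC.2.pmi h.hyp.sb.dp
  exact core_pm h h1 h2 (noInv h h1) (noInv h.symm h2)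

end H25.AB
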