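import Pool.Agent.H25.AB.Cen
import Pool.Agent.H78.CT.T10
import Pool.Agent.H68.CK.Red
import Pool.Agent.H36.CH2.Kaz

/-! The assembly: the statement `T8` in minimal configurations implies the theorem. -/

namespace H25.AB

open Subgroup H36.CH

/-- If `T8` holds in minimal configurations then the divisible parts commute. -/
theorem comm_of_T8
    (hT : ∀ (G : Type) [Group G] (A A0 P B B0 Q : Subgroup G), Cfg A A0 P B B0 Q →
      Mini A P B Q → H78.CT.T8 A A0 B0)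
    (G : Type) [Group G] (A A0 P B B0 Q : Subgroup G) (h : Hyp A A0 P B B0 Q) :
    ∀ x ∈ P, ∀ y ∈ Q, x * y = y * x := by
  refine reduction' cls_true ?_ G A A0 P B B0 Q h trivial
  intro G _ A A0 P B B0 Q h hm _
  exact false_of_centers_finite h
    (H78.CT.Cfg.center_finite h (hT G A A0 P B B0 Q h hm))
    (H78.CT.Cfg.center_finite h.symm (hT G B B0 Q A A0 P h.symm hm.symm))

/-- The theorem, from `T8` in minimal configurations. -/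
theorem soluble_of_T8
    (hT : ∀ (G : Type) [Group G] (A A0 P B B0 Q : Subgroup G), Cfg A A0 P B B0 Q →
      Mini A P B Q → H78.CT.T8 A A0 B0)
    (G : Type) [Group G] (A B : Subgroup G)
    (hfac : ∀ g : G, ∃ a ∈ A, ∃ b ∈ B, g = a * b)
    (hA : ∃ H : Subgroup G, H ≤ A ∧ (∀ x ∈ H, ∀ y ∈ H, x * y = y * x) ∧
      (H.subgroupOf A).index ≠ 0 ∧ WellFoundedLT (Subgroup ↥H))
    (hB : ∃ H : Subgroup G, H ≤ B ∧ (∀ x ∈ H, ∀ y ∈ H, x * y = y * x) ∧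
      (H.subgroupOf B).index ≠ 0 ∧ WellFoundedLT (Subgroup ↥H))
    (hA2 : ∃ K : Subgroup G, K ≤ A ∧ (∀ x ∈ K, ∀ y ∈ K, x * y = y * x) ∧
      (K.subgroupOf A).index ≠ 0 ∧ (K.subgroupOf A).index ≤ 2)
    (hB2 : ∃ K : Subgroup G, K ≤ B ∧ (∀ x ∈ K, ∀ y ∈ K, x * y = y * x) ∧
      (K.subgroupOf B).index ≠ 0 ∧ (K.subgroupOf B).index ≤ 2) :
    (∃ D : Subgroup G, D.Normal ∧ (∀ x ∈ D, ∀ y ∈ D, x * y = y * x) ∧
      (∀ x ∈ D, ∀ n : ℕ, 0 < n → ∃ y ∈ D, y ^ n = x) ∧ D.index ≠ 0 ∧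
      WellFoundedLT (Subgroup ↥D)) ∧ Group.IsSolvable G := by
  obtain ⟨K, hK, hKc, hK0, hK2⟩ := hA2
  obtain ⟨L, hL, hLc, hL0, hL2⟩ := hB2
  obtain ⟨P, hP⟩ := H36.CH.exists_side A hA K hK hKc hK0 hK2
  obtain ⟨Q, hQ⟩ := H36.CH.exists_side B hB L hL hLc hL0 hL2
  have hH : H36.CH.Hyp A K P B L Q := ⟨hfac, hP, hQ⟩
  have hcomm := comm_of_T8 hT G A K P B L Q hH
  obtain ⟨h1, h2⟩ := H36.CH.conclude hH hcomm
  exact ⟨h1, h2 H36.CH.finiteCase⟩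

/-- The frozen statement, from `T8` in minimal configurations. -/
theorem frozen_of_T8
    (hT : ∀ (G : Type) [Group G] (A A0 P B B0 Q : Subgroup G), Cfg A A0 P B B0 Q →
      Mini A P B Q → H78.CT.T8 A A0 B0) :
    ∀ (G : Type) [Group G] (A B : Subgroup G),
      (∀ g : G, ∃ a ∈ A, ∃ b ∈ B, g = a * b) →
      (∃ H : Subgroup G, H ≤ A ∧ (∀ x ∈ H, ∀ y ∈ H, x * y = y * x) ∧
        (H.subgroupOf A).index ≠ 0 ∧ WellFoundedLT (Subgroup ↥H)) →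
      (∃ H : Subgroup G, H ≤ B ∧ (∀ x ∈ H, ∀ y ∈ H, x * y = y * x) ∧
        (H.subgroupOf B).index ≠ 0 ∧ WellFoundedLT (Subgroup ↥H)) →
      (∃ K : Subgroup G, K ≤ A ∧ (∀ x ∈ K, ∀ y ∈ K, x * y = y * x) ∧
        (K.subgroupOf A).index ≠ 0 ∧ (K.subgroupOf A).index ≤ 2) →
      (∃ K : Subgroup G, K ≤ B ∧ (∀ x ∈ K, ∀ y ∈ K, x * y = y * x) ∧
        (K.subgroupOf B).index ≠ 0 ∧ (K.subgroupOf B).index ≤ 2) →
      IsSolvable G :=
  fun G _ A B hfac hA hB hA2 hB2 => (soluble_of_T8 hT G A B hfac hA hB hA2 hB2).2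

end H25.AB
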