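import Pool.Agent.H25.AB.Star

/-! Central involutions of the factors of a minimal configuration. -/

namespace H25.AB

open Subgroup Pointwise H36.CH

variable {G : Type} [Group G] {A A0 P B B0 Q : Subgroup G}

/-- An involution of `P` gives one which is central in `A`. -/
theorem exists_central_involution (h : Side A A0 P) {x : G} (hx : x ∈ P) (hx2 : x * x = 1)
    (hx1 : x ≠ 1) : ∃ y ∈ P, y * y = 1 ∧ y ≠ 1 ∧ ∀ a ∈ A, a * y = y * a := by
  have hPA : P ≤ A0 := h.le_A0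
  by_cases hall : ∀ t ∈ A, t * x * t⁻¹ = x
  · refine ⟨x, hx, hx2, hx1, ?_⟩
    intro a ha
    have := hall a ha
    rw [mul_inv_eq_iff_eq_mul] at this
    exact this
  · push Not at hall
    obtain ⟨t, ht, htx⟩ := hall
    have ht0 : t ∉ A0 := by
      intro h0
      apply htx
      rw [h.comm0 t h0 x (hPA hx), mul_inv_cancel_right]
    have hx' : t * x * t⁻¹ ∈ P := (h.dp.le_Nz ht x hx).1
    have hc : x * (t * x * t⁻¹) = (t * x * t⁻¹) * x := h.dp.dc.comm x hx _ hx'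
    have hxi : x⁻¹ = x := inv_eq_of_mul_eq_one_left hx2
    have hti : t⁻¹ ∉ A0 := fun h2 => ht0 (by simpa using A0.inv_mem h2)
    refine ⟨x * (t * x * t⁻¹), P.mul_mem hx hx', ?_, ?_, ?_⟩
    · have h2 : (t * x * t⁻¹) * (t * x * t⁻¹) = 1 := by
        calc (t * x * t⁻¹) * (t * x * t⁻¹) = t * (x * x) * t⁻¹ := by group
          _ = 1 := by rw [hx2, mul_one, mul_inv_cancel]
      calc x * (t * x * t⁻¹) * (x * (t * x * t⁻¹))
          = x * ((t * x * t⁻¹) * x) * (t * x * t⁻¹) := by group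
        _ = x * (x * (t * x * t⁻¹)) * (t * x * t⁻¹) := by rw [hc]
        _ = (x * x) * ((t * x * t⁻¹) * (t * x * t⁻¹)) := by group
        _ = 1 := by rw [hx2, h2, one_mul]
    · intro h1
      apply htx
      have h2 : t * x * t⁻¹ = x⁻¹ := eq_inv_of_mul_eq_one_right h1
      rw [h2, hxi]
    · -- the product is centralised by `A0` and by `t`
      have hprod : x * (t * x * t⁻¹) ∈ A0 := hPA (P.mul_mem hx hx')
      have htt : t * t ∈ A0 := h.idx t ht t ht ht0 ht0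
      have hct : t * (x * (t * x * t⁻¹)) = (x * (t * x * t⁻¹)) * t := by
        have h3 := h.comm0 (t * t) htt x (hPA hx)
        calc t * (x * (t * x * t⁻¹)) = (t * x * t⁻¹) * ((t * t) * x) * t⁻¹ := by group
          _ = (t * x * t⁻¹) * (x * (t * t)) * t⁻¹ := by rw [h3]
          _ = ((t * x * t⁻¹) * x) * t := by group
          _ = _ := by rw [hc]
      intro a ha
      by_cases ha0 : a ∈ A0
      · exact h.comm0 a ha0 _ hprod
      · have h4 : a * t⁻¹ ∈ A0 := h.idx a ha _ (A.inv_mem ht) ha0 hti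
        have h5 := h.comm0 _ h4 _ hprod
        calc a * (x * (t * x * t⁻¹)) = (a * t⁻¹) * (t * (x * (t * x * t⁻¹))) := by group
          _ = (a * t⁻¹) * (x * (t * x * t⁻¹)) * t := by rw [hct]; group
          _ = (x * (t * x * t⁻¹)) * (a * t⁻¹) * t := by rw [h5]
          _ = _ := by group

/-- The element `z` of order two, central in `B`, has an involution outside of `A0` in its
centraliser: then every conjugate of `z` of the form `z w`, `w ≠ 1` commuting with `z`,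
inverts `Q`. -/
theorem inverts (h : Cfg A A0 P B B0 Q) {z i e w : G} (hzB : z ∈ B0) (hz2 : z * z = 1)
    (hz1 : z ≠ 1) (hzc : ∀ x ∈ B, x * z = z * x) (hi : i ∈ A) (hi0 : i ∉ A0)
    (hiz : i * z = z * i) (he : e⁻¹ * z * e = z * w) (hw : w * z = z * w) (hw1 : w ≠ 1) :
    ∀ q ∈ Q, (z * w) * q * (z * w)⁻¹ = q⁻¹ := by
  have hzN : B ≤ Nz (Subgroup.zpowers z) := le_Nz_zpowers_of_comm hzc
  have hQB0 : Q ≤ B0 := h.hyp.sb.le_A0
  have hcen : ∀ g : G, g * z = z * g → g ∈ Nz Q := fun g hg => centr_le h hzB hz1 hzN hg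
  have hiM : i ∈ Nz Q := hcen i hiz
  -- `i` is an involution
  have hii : i * i = 1 := by
    by_contra hne
    refine star h (h.hyp.sa.idx i hi i hi hi0 hi0) hne hzB hz1 hzN ?_
    rw [mul_assoc, hiz, ← mul_assoc, hiz, mul_assoc]
  -- `A0` meets the normaliser of `Q` trivially
  have hA0M : ∀ y ∈ A0, y ∈ Nz Q → y = 1 := by
    intro y hy hyM
    refine eq_one_of_normal h (X := A0 ⊓ Nz Q) ?_ inf_le_right ⟨hy, hyM⟩
    intro a ha x hx
    have key : ∀ a ∈ A, ∀ x ∈ A0 ⊓ Nz Q, a * x * a⁻¹ ∈ A0 ⊓ Nz Q := by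
      intro a ha x hx
      refine ⟨h.hyp.sa.conj0 ha hx.1, ?_⟩
      by_cases ha0 : a ∈ A0
      · rw [h.hyp.sa.comm0 a ha0 x hx.1, mul_inv_cancel_right]
        exact hx.2
      · have hii0 : i⁻¹ ∉ A0 := fun h2 => hi0 (by simpa using A0.inv_mem h2)
        have h4 : i⁻¹ * a ∈ A0 := h.hyp.sa.idx _ (A.inv_mem hi) a ha hii0 ha0
        have h5 := h.hyp.sa.comm0 _ h4 x hx.1
        have h6 : a * x * a⁻¹ = i * x * i⁻¹ := by
          calc a * x * a⁻¹ = i * ((i⁻¹ * a) * x) * (i⁻¹ * a)⁻¹ * i⁻¹ := by group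
            _ = i * (x * (i⁻¹ * a)) * (i⁻¹ * a)⁻¹ * i⁻¹ := by rw [h5]
            _ = _ := by group
        rw [h6]
        exact (Nz Q).mul_mem ((Nz Q).mul_mem hiM hx.2) ((Nz Q).inv_mem hiM)
    refine ⟨key a ha x hx, ?_⟩
    have h1 := key a⁻¹ (A.inv_mem ha) x hx
    rwa [inv_inv] at h1
  -- `e = c v`, `c` in the centraliser of `z`, `v ∈ A0`
  obtain ⟨c, v, hcz, hv, hev⟩ : ∃ c v : G, c * z = z * c ∧ v ∈ A0 ∧ e = c * v := by
    obtain ⟨b, hb, a, ha, rfl⟩ := h.symm.hyp.fac e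
    by_cases ha0 : a ∈ A0
    · exact ⟨b, a, hzc b hb, ha0, rfl⟩
    · have hii0 : i⁻¹ ∉ A0 := fun h2 => hi0 (by simpa using A0.inv_mem h2)
      refine ⟨b * i, i⁻¹ * a, ?_, h.hyp.sa.idx _ (A.inv_mem hi) a ha hii0 ha0, by group⟩
      rw [mul_assoc, hiz, ← mul_assoc, hzc b hb, mul_assoc]
  have hz1v : z * w = v⁻¹ * z * v := by
    rw [← he, hev]
    calc (c * v)⁻¹ * z * (c * v) = v⁻¹ * c⁻¹ * (z * c) * v := by group
      _ = v⁻¹ * c⁻¹ * (c * z) * v := by rw [hcz]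
      _ = _ := by group
  set z1 := z * w with hz1def
  have hz1z : z1 * z = z * z1 := by
    rw [hz1def, mul_assoc, hw]
  have hz1sq : z1 * z1 = 1 := by
    rw [hz1v]
    calc v⁻¹ * z * v * (v⁻¹ * z * v) = v⁻¹ * (z * z) * v := by group
      _ = 1 := by rw [hz2, mul_one, inv_mul_cancel]
  have hz1inv : z1⁻¹ = z1 := inv_eq_of_mul_eq_one_left hz1sq
  have hz1M : z1 ∈ Nz Q := hcen z1 hz1z
  have hvne : v ≠ 1 := by
    intro hv1
    apply hw1
    have h1 : z * w = z := by rw [← hz1def, hz1v, hv1]; group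
    have h2 : z * w = z * 1 := by rw [mul_one]; exact h1
    exact mul_left_cancel h2
  -- `i` normalises `B`
  have hcent : ∀ g : G, g * z = z * g → g ∈ B ∨ g * i⁻¹ ∈ B := by
    intro g hg
    obtain ⟨b, hb, a, ha, rfl⟩ := h.symm.hyp.fac g
    have haz : a * z = z * a := by
      have h1 : b * (a * z) = b * (z * a) := by
        calc b * (a * z) = b * a * z := by group
          _ = z * (b * a) := hg
          _ = (z * b) * a := by group
          _ = (b * z) * a := by rw [hzc b hb]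
          _ = _ := by group
      exact mul_left_cancel h1
    by_cases ha0 : a ∈ A0
    · left
      by_cases ha1 : a = 1
      · rw [ha1, mul_one]; exact hb
      · exact absurd haz (star h ha0 ha1 hzB hz1 hzN)
    · right
      have hii0 : i⁻¹ ∉ A0 := fun h2 => hi0 (by simpa using A0.inv_mem h2)
      have h4 : a * i⁻¹ ∈ A0 := h.hyp.sa.idx a ha _ (A.inv_mem hi) ha0 hii0
      have hiz' : i⁻¹ * z = z * i⁻¹ := by
        have : Commute i z := hiz
        exact this.inv_left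
      have h5 : (a * i⁻¹) * z = z * (a * i⁻¹) := by
        rw [mul_assoc, hiz', ← mul_assoc, haz, mul_assoc]
      have h6 : a * i⁻¹ = 1 := by
        by_contra hne
        exact star h h4 hne hzB hz1 hzN h5
      rw [mul_assoc, h6, mul_one]
      exact hb
  have hnorm : ∀ g : G, g * z = z * g → ∀ b ∈ B, g * b * g⁻¹ ∈ B := by
    have hi1 : ∀ b ∈ B, i * b * i⁻¹ ∈ B := by
      intro b hb
      have h1 : (i * b * i⁻¹) * z = z * (i * b * i⁻¹) := by
        have c1 : Commute i z := hiz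
        have c2 : Commute b z := hzc b hb
        exact (c1.mul_left c2).mul_left c1.inv_left
      rcases hcent _ h1 with h2 | h2
      · exact h2
      · exfalso
        have h3 : i * b ∈ B := by
          have h4 : i * b * i⁻¹ * i⁻¹ = i * b * (i * i)⁻¹ := by group
          rw [h4, hii, inv_one, mul_one] at h2
          exact h2
        have h5 : i ∈ B := by
          have h6 := B.mul_mem h3 (B.inv_mem hb)
          rwa [mul_inv_cancel_right] at h6
        have h7 := disj h hi h5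
        apply hi0
        rw [h7]
        exact A0.one_mem
    intro g hg b hb
    rcases hcent g hg with h1 | h1
    · exact B.mul_mem (B.mul_mem h1 hb) (B.inv_mem h1)
    · have h2 : g * b * g⁻¹ = (g * i⁻¹) * (i * b * i⁻¹) * (g * i⁻¹)⁻¹ := by group
      rw [h2]
      exact B.mul_mem (B.mul_mem h1 (hi1 b hb)) (B.inv_mem h1)
  -- `R = C_Q(z1)` is normalised by `B`
  set R : Subgroup G := Q ⊓ Subgroup.centralizer {z1} with hR
  have hRmem : ∀ q : G, q ∈ R ↔ q ∈ Q ∧ q * z1 = z1 * q := by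
    intro q
    rw [hR, Subgroup.mem_inf, Subgroup.mem_centralizer_singleton_iff]
  have hBQ : ∀ b ∈ B, b ∈ Nz Q := fun b hb => h.hyp.sb.dp.le_Nz hb
  have hact : ∀ b ∈ B, ∀ q ∈ Q, (z1 * b * z1⁻¹) * q * (z1 * b * z1⁻¹)⁻¹ = b * q * b⁻¹ := by
    intro b hb q hq
    have hbs : z1 * b * z1⁻¹ ∈ B := hnorm z1 hz1z b hb
    have hq1 : z1 * q * z1⁻¹ ∈ Q := (hz1M q hq).1
    have hq2 : z1⁻¹ * q * z1 ∈ Q := (hz1M q hq).2
    -- if `b` centralises `Q` then so does its conjugate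
    have hcc : ∀ b : G, (∀ q ∈ Q, b * q * b⁻¹ = q) → ∀ q ∈ Q,
        (z1 * b * z1⁻¹) * q * (z1 * b * z1⁻¹)⁻¹ = q := by
      intro b hbq q hq
      have h1 := hbq _ (hz1M q hq).2
      calc (z1 * b * z1⁻¹) * q * (z1 * b * z1⁻¹)⁻¹
          = z1 * (b * (z1⁻¹ * q * z1) * b⁻¹) * z1⁻¹ := by group
        _ = z1 * (z1⁻¹ * q * z1) * z1⁻¹ := by rw [h1]
        _ = q := by group
    have hB0c : ∀ b ∈ B0, ∀ q ∈ Q, b * q * b⁻¹ = q := by
      intro b hb q hq
      rw [h.hyp.sb.comm0 b hb q (hQB0 hq), mul_inv_cancel_right]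
    by_cases hb0 : b ∈ B0
    · rw [hB0c b hb0 q hq]
      exact hcc b (hB0c b hb0) q hq
    · by_cases hbs0 : z1 * b * z1⁻¹ ∈ B0
      · rw [hB0c _ hbs0 q hq]
        have h1 := hcc (z1 * b * z1⁻¹) (hB0c _ hbs0) q hq
        have h2 : z1 * (z1 * b * z1⁻¹) * z1⁻¹ = b := by
          calc z1 * (z1 * b * z1⁻¹) * z1⁻¹ = (z1 * z1) * b * (z1 * z1)⁻¹ := by group
            _ = b := by rw [hz1sq, one_mul, inv_one, mul_one]
        rw [h2] at h1
        exact h1.symm
      · have hbi : b⁻¹ ∉ B0 := fun h2 => hb0 (by simpa using B0.inv_mem h2)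
        have h1 : b⁻¹ * (z1 * b * z1⁻¹) ∈ B0 := h.hyp.sb.idx _ (B.inv_mem hb) _ hbs hbi hbs0
        have h2 := hB0c _ h1 q hq
        calc (z1 * b * z1⁻¹) * q * (z1 * b * z1⁻¹)⁻¹
            = b * ((b⁻¹ * (z1 * b * z1⁻¹)) * q * (b⁻¹ * (z1 * b * z1⁻¹))⁻¹) * b⁻¹ := by group
          _ = b * q * b⁻¹ := by rw [h2]
  have hBR : ∀ b ∈ B, ∀ q ∈ R, b * q * b⁻¹ ∈ R := by
    intro b hb q hq
    rw [hRmem] at hq ⊢
    refine ⟨(hBQ b hb q hq.1).1, ?_⟩
    have h1 := hact b hb q hq.1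
    have hqz : z1 * q * z1⁻¹ = q := by rw [← hq.2, mul_inv_cancel_right]
    have h2 : z1 * (b * q * b⁻¹) * z1⁻¹ = b * q * b⁻¹ := by
      calc z1 * (b * q * b⁻¹) * z1⁻¹
          = (z1 * b * z1⁻¹) * (z1 * q * z1⁻¹) * (z1 * b * z1⁻¹)⁻¹ := by group
        _ = (z1 * b * z1⁻¹) * q * (z1 * b * z1⁻¹)⁻¹ := by rw [hqz]
        _ = b * q * b⁻¹ := h1
    rw [mul_inv_eq_iff_eq_mul] at h2
    exact h2.symm
  -- the divisible part of `R` is trivial
  obtain ⟨D, hD⟩ : ∃ D : Subgroup G, DP R D := by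
    refine exists_DP ?_ (art_mono inf_le_left h.hyp.sb.dp.dc.art)
    intro x hx y hy
    exact h.hyp.sb.dp.dc.comm x ((hRmem x).mp hx).1 y ((hRmem y).mp hy).1
  have hDQ : D ≤ Q := hD.le.trans inf_le_left
  have hBD : B ≤ Nz D := by
    have key : ∀ b ∈ B, ∀ x ∈ D, b * x * b⁻¹ ∈ D := by
      intro b hb
      exact hD.dc.conj_le hD.fin b (fun x hx => hBR b hb x (hD.le hx))
    intro b hb x hx
    refine ⟨key b hb x hx, ?_⟩
    have h1 := key b⁻¹ (B.inv_mem hb) x hx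
    rwa [inv_inv] at h1
  have hDbot : D = ⊥ := by
    by_contra hDne
    have hNzD : Nz D ≤ Nz Q := h.symm.Nz_le (hDQ.trans hQB0) hDne hBD
    have hBC : B ≤ Subgroup.centralizer {z} := by
      intro b hb
      rw [Subgroup.mem_centralizer_singleton_iff]
      exact hzc b hb
    have hCtop : Subgroup.centralizer {z} ≠ ⊤ := by
      intro htop
      apply hz1
      refine h.cent z ?_ ?_
      · intro x _
        have h1 : x ∈ Subgroup.centralizer {z} := by rw [htop]; exact Subgroup.mem_top x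
        rw [Subgroup.mem_centralizer_singleton_iff] at h1
        exact h1.symm
      · intro y hy
        exact (hzc y (h.hyp.sb.dp.le hy)).symm
    have hQC : Q.relIndex (Subgroup.centralizer {z}) ≠ 0 := (h.symm.sub_top hBC hCtop).1
    -- `v D v⁻¹` lies in `Q`
    have hDv : D.map (MulAut.conj v).toMonoidHom ≤ Q := by
      refine (hD.dc.map _).le_of_relIndex ?_
      intro h0
      refine hQC (Subgroup.relIndex_eq_zero_of_le_right ?_ h0)
      rintro _ ⟨x, hx, rfl⟩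
      rw [Subgroup.mem_centralizer_singleton_iff]
      show (v * x * v⁻¹) * z = z * (v * x * v⁻¹)
      have h1 : x * z1 = z1 * x := ((hRmem x).mp (hD.le hx)).2
      rw [hz1v] at h1
      calc (v * x * v⁻¹) * z = v * (x * (v⁻¹ * z * v)) * v⁻¹ := by group
        _ = v * ((v⁻¹ * z * v) * x) * v⁻¹ := by rw [h1]
        _ = _ := by group
    have hvQ : v⁻¹ ∈ Nz Q := by
      have hQN : Q.relIndex (Nz Q) ≠ 0 :=
        (h.symm.sub_top h.hyp.sb.dp.le_Nz h.symm.Nz_ne_top).1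
      refine h.hyp.sb.dp.dc.mem_Nz v⁻¹ ?_
      refine h.hyp.sb.dp.dc.conj_le hQN v⁻¹ ?_
      intro q hq
      refine hNzD ?_
      -- `v⁻¹ q v` centralises `D`
      intro x hx
      have h1 : v * x * v⁻¹ ∈ Q := hDv ⟨x, hx, rfl⟩
      have h2 := h.hyp.sb.dp.dc.comm q hq _ h1
      have h3 : (v⁻¹ * q * v) * x = x * (v⁻¹ * q * v) := by
        calc (v⁻¹ * q * v) * x = v⁻¹ * (q * (v * x * v⁻¹)) * v := by group
          _ = v⁻¹ * ((v * x * v⁻¹) * q) * v := by rw [h2]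
          _ = _ := by group
      rw [inv_inv]
      refine ⟨?_, ?_⟩
      · rw [h3, mul_inv_cancel_right]; exact hx
      · rw [mul_assoc, ← h3, inv_mul_cancel_left]; exact hx
    have hv2 : v ∈ Nz Q := by
      have := (Nz Q).inv_mem hvQ
      rwa [inv_inv] at this
    exact hvne (hA0M v hv hv2)
  -- `R` is finite
  have hRfin : Finite ↥R := by
    have h1 := hD.fin
    rw [hDbot, Subgroup.relIndex_bot_left] at h1
    exact Nat.finite_of_card_ne_zero h1
  intro q hq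
  obtain ⟨r, hr, hrq⟩ := h.hyp.sb.dp.dc.div q hq (Nat.card ↥R) Nat.card_pos
  have hr1 : z1 * r * z1⁻¹ ∈ Q := (hz1M r hr).1
  have hrc : r * (z1 * r * z1⁻¹) = (z1 * r * z1⁻¹) * r := h.hyp.sb.dp.dc.comm r hr _ hr1
  have hrR : r * (z1 * r * z1⁻¹) ∈ R := by
    rw [hRmem]
    refine ⟨Q.mul_mem hr hr1, ?_⟩
    have h2 : z1 * (r * (z1 * r * z1⁻¹)) = (r * (z1 * r * z1⁻¹)) * z1 := by
      calc z1 * (r * (z1 * r * z1⁻¹)) = (z1 * r * z1⁻¹) * ((z1 * z1) * r * z1⁻¹) := by group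
        _ = (z1 * r * z1⁻¹) * (r * z1⁻¹) := by rw [hz1sq, one_mul]
        _ = ((z1 * r * z1⁻¹) * r) * z1⁻¹ := by group
        _ = (r * (z1 * r * z1⁻¹)) * z1⁻¹ := by rw [hrc]
        _ = (r * (z1 * r * z1⁻¹)) * z1 := by rw [hz1inv]
    exact h2.symm
  have hpow : (r * (z1 * r * z1⁻¹)) ^ Nat.card ↥R = 1 := by
    have h3 : (⟨r * (z1 * r * z1⁻¹), hrR⟩ : ↥R) ^ Nat.card ↥R = 1 := pow_card_eq_one'
    exact congrArg Subtype.val h3
  have h4 : r ^ Nat.card ↥R * (z1 * r * z1⁻¹) ^ Nat.card ↥R = 1 := by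
    rw [← (show Commute r (z1 * r * z1⁻¹) from hrc).mul_pow]
    exact hpow
  rw [conj_pow, hrq] at h4
  exact eq_inv_of_mul_eq_one_right h4

end H25.AB
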