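import Pool.Agent.H25.AB.Two

/-! Factors all of whose elements centralise or invert the divisible part. -/

namespace H25.AB

open Subgroup Pointwise H36.CH

variable {G : Type} [Group G] {A A0 P B B0 Q : Subgroup G}

/-- Every element of `A` centralises `P` or inverts `P`. -/
def PMi (A P : Subgroup G) : Prop :=
  ∀ a ∈ A, (∀ p ∈ P, a * p * a⁻¹ = p) ∨ (∀ p ∈ P, a * p * a⁻¹ = p⁻¹)

/-- No involution of the normaliser of `P` inverts `P`. -/
def NoInv (P : Subgroup G) : Prop :=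
  ∀ e ∈ Nz P, e * e = 1 → (∀ p ∈ P, e * p * e⁻¹ = p⁻¹) → False

theorem PMi.zpowers_Nz (hA : PMi A P) {p : G} (hp : p ∈ P) : A ≤ Nz (Subgroup.zpowers p) := by
  intro a ha
  have key : ∀ a ∈ A, ∀ v ∈ Subgroup.zpowers p, a * v * a⁻¹ ∈ Subgroup.zpowers p := by
    intro a ha v hv
    obtain ⟨m, rfl⟩ := Subgroup.mem_zpowers_iff.mp hv
    rw [← conj_zpow]
    apply Subgroup.zpow_mem
    rcases hA a ha with h1 | h1
    · rw [h1 p hp]; exact Subgroup.mem_zpowers p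
    · rw [h1 p hp]; exact Subgroup.inv_mem _ (Subgroup.mem_zpowers p)
  intro v hv
  refine ⟨key a ha v hv, ?_⟩
  have := key a⁻¹ (A.inv_mem ha) v hv
  rwa [inv_inv] at this

/-- An involution with finitely many fixed points in `P` inverts `P`. -/
theorem inv_of_fin (hP : DC P) {e : G} (he : e ∈ Nz P) (he2 : e * e = 1)
    (hfin : ((P ⊓ Subgroup.centralizer {e} : Subgroup G) : Set G).Finite) :
    ∀ p ∈ P, e * p * e⁻¹ = p⁻¹ := by
  intro p hp
  set R : Subgroup G := P ⊓ Subgroup.centralizer {e} with hR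
  have hFin : Finite ↥R := hfin.to_subtype
  have hei : e⁻¹ = e := inv_eq_of_mul_eq_one_left he2
  obtain ⟨r, hr, hrp⟩ := hP.div p hp (Nat.card ↥R) Nat.card_pos
  have hr' : e * r * e⁻¹ ∈ P := (he r hr).1
  have hrc : r * (e * r * e⁻¹) = (e * r * e⁻¹) * r := hP.comm r hr _ hr'
  have hrR : r * (e * r * e⁻¹) ∈ R := by
    refine ⟨P.mul_mem hr hr', ?_⟩
    show r * (e * r * e⁻¹) ∈ Subgroup.centralizer {e}
    rw [Subgroup.mem_centralizer_singleton_iff]
    have h2 : e * (r * (e * r * e⁻¹)) = (r * (e * r * e⁻¹)) * e := by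
      calc e * (r * (e * r * e⁻¹)) = (e * r * e⁻¹) * ((e * e) * r * e⁻¹) := by group
        _ = (e * r * e⁻¹) * (r * e⁻¹) := by rw [he2, one_mul]
        _ = ((e * r * e⁻¹) * r) * e⁻¹ := by group
        _ = (r * (e * r * e⁻¹)) * e⁻¹ := by rw [hrc]
        _ = (r * (e * r * e⁻¹)) * e := by rw [hei]
    exact h2.symm
  have hpow : (r * (e * r * e⁻¹)) ^ Nat.card ↥R = 1 := by
    have h3 : (⟨r * (e * r * e⁻¹), hrR⟩ : ↥R) ^ Nat.card ↥R = 1 := pow_card_eq_one'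
    exact congrArg Subtype.val h3
  have h4 : r ^ Nat.card ↥R * (e * r * e⁻¹) ^ Nat.card ↥R = 1 := by
    rw [← (show Commute r (e * r * e⁻¹) from hrc).mul_pow]
    exact hpow
  rw [conj_pow, hrp] at h4
  exact eq_inv_of_mul_eq_one_right h4

/-- `Q` is not contained in the normaliser of `P`. -/
theorem not_le_Nz (h : Cfg A A0 P B B0 Q) : ¬ Q ≤ Nz P := by
  intro h1
  exact h.symm.infP (h.fin_NB.subset (fun q hq => ⟨h.hyp.sb.dp.le hq, h1 hq⟩))

/-- Centralisers of central elements, if no involution of a normaliser inverts. -/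
theorem centr_eq (h : Cfg A A0 P B B0 Q) (hA : PMi A P) (hB : PMi B Q) (tA : NoInv P)
    (tB : NoInv Q) {u g : G} (hu : u ∈ A0) (hu1 : u ≠ 1) (huc : ∀ a ∈ A, a * u = u * a)
    (hg : g * u = u * g) : g ∈ A := by
  obtain ⟨a, ha, b, hb, rfl⟩ := h.hyp.fac g
  have huN : A ≤ Nz (Subgroup.zpowers u) := le_Nz_zpowers_of_comm huc
  have hbu : b * u = u * b := by
    have h1 : a * (b * u) = a * (u * b) := by
      calc a * (b * u) = a * b * u := by group
        _ = u * (a * b) := hg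
        _ = (u * a) * b := by group
        _ = (a * u) * b := by rw [huc a ha]
        _ = _ := by group
    exact mul_left_cancel h1
  suffices hb1 : b = 1 by rw [hb1, mul_one]; exact ha
  by_contra hb1
  have hb0 : b ∉ B0 := fun hb0 => star h.symm hb0 hb1 hu hu1 huN hbu
  have hbb : b * b = 1 := by
    by_contra hne
    refine star h.symm (h.hyp.sb.idx b hb b hb hb0 hb0) hne hu hu1 huN ?_
    rw [mul_assoc, hbu, ← mul_assoc, hbu, mul_assoc]
  have hbN : b ∈ Nz P := centr_le h.symm hu hu1 huN hbu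
  have hbi0 : b⁻¹ ∉ B0 := fun h2 => hb0 (by simpa using B0.inv_mem h2)
  -- `B0` meets the normaliser of `P` trivially
  have hB0N : ∀ y ∈ B0, y ∈ Nz P → y = 1 := by
    intro y hy hyM
    refine eq_one_of_normal h.symm (X := B0 ⊓ Nz P) ?_ inf_le_right ⟨hy, hyM⟩
    have key : ∀ a ∈ B, ∀ x ∈ B0 ⊓ Nz P, a * x * a⁻¹ ∈ B0 ⊓ Nz P := by
      intro a ha x hx
      refine ⟨h.hyp.sb.conj0 ha hx.1, ?_⟩
      by_cases ha0 : a ∈ B0
      · rw [h.hyp.sb.comm0 a ha0 x hx.1, mul_inv_cancel_right]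
        exact hx.2
      · have h4 : b⁻¹ * a ∈ B0 := h.hyp.sb.idx _ (B.inv_mem hb) a ha hbi0 ha0
        have h5 := h.hyp.sb.comm0 _ h4 x hx.1
        have h6 : a * x * a⁻¹ = b * x * b⁻¹ := by
          calc a * x * a⁻¹ = b * ((b⁻¹ * a) * x) * (b⁻¹ * a)⁻¹ * b⁻¹ := by group
            _ = b * (x * (b⁻¹ * a)) * (b⁻¹ * a)⁻¹ * b⁻¹ := by rw [h5]
            _ = _ := by group
        rw [h6]
        exact (Nz P).mul_mem ((Nz P).mul_mem hbN hx.2) ((Nz P).inv_mem hbN)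
    intro a ha x hx
    refine ⟨key a ha x hx, ?_⟩
    have h1 := key a⁻¹ (B.inv_mem ha) x hx
    rwa [inv_inv] at h1
  -- the intersection of `B` with the normaliser
  have hBN : ∀ y ∈ B, y ∈ Nz P → y = 1 ∨ y = b := by
    intro y hy hyN
    by_cases hy0 : y ∈ B0
    · exact Or.inl (hB0N y hy0 hyN)
    · right
      have h1 : y * b⁻¹ ∈ B0 := h.hyp.sb.idx y hy _ (B.inv_mem hb) hy0 hbi0
      have h2 := hB0N _ h1 ((Nz P).mul_mem hyN ((Nz P).inv_mem hbN))
      exact mul_inv_eq_one.mp h2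
  -- the centraliser of `b` is factorised
  set C : Subgroup G := Subgroup.centralizer {b} with hC
  have hCm : ∀ g : G, g ∈ C ↔ g * b = b * g := by
    intro g
    rw [hC, Subgroup.mem_centralizer_singleton_iff]
  have hfac : ∀ g ∈ C, ∃ a ∈ C ⊓ A, ∃ b' ∈ C ⊓ B, g = a * b' := by
    intro g hg
    obtain ⟨a', ha', b', hb', rfl⟩ := h.hyp.fac g
    have h0 := (hCm _).mp hg
    have h1 : a'⁻¹ * b * a' = b' * b * b'⁻¹ := by
      calc a'⁻¹ * b * a' = a'⁻¹ * (b * (a' * b')) * b'⁻¹ := by group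
        _ = a'⁻¹ * ((a' * b') * b) * b'⁻¹ := by rw [h0]
        _ = _ := by group
    have hB1 : a'⁻¹ * b * a' ∈ B := by
      rw [h1]; exact B.mul_mem (B.mul_mem hb' hb) (B.inv_mem hb')
    have haN : a' ∈ Nz P := h.hyp.sa.dp.le_Nz ha'
    have hN1 : a'⁻¹ * b * a' ∈ Nz P :=
      (Nz P).mul_mem ((Nz P).mul_mem ((Nz P).inv_mem haN) hbN) haN
    have h2 : a'⁻¹ * b * a' = b := by
      rcases hBN _ hB1 hN1 with h3 | h3
      · exfalso
        apply hb1
        have h4 : b = a' * (a'⁻¹ * b * a') * a'⁻¹ := by group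
        rw [h4, h3, mul_one, mul_inv_cancel]
      · exact h3
    have haC : a' ∈ C := by
      rw [hCm]
      have h3 : b * a' = a' * (a'⁻¹ * b * a') := by group
      rw [h3, h2]
    refine ⟨a', ⟨haC, ha'⟩, b', ⟨?_, hb'⟩, rfl⟩
    have := C.mul_mem (C.inv_mem haC) hg
    rwa [inv_mul_cancel_left] at this
  -- `b` centralises `Q`
  have hbQ : ∀ q ∈ Q, b * q * b⁻¹ = q := by
    rcases hB b hb with h1 | h1
    · exact h1
    · exact (tB b (h.hyp.sb.dp.le_Nz hb) hbb h1).elim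
  have hQC : Q ≤ C := by
    intro q hq
    rw [hCm]
    have := hbQ q hq
    rw [mul_inv_eq_iff_eq_mul] at this
    exact this.symm
  have hDQ : DP (C ⊓ B) Q := ⟨h.hyp.sb.dp.dc, le_inf hQC h.hyp.sb.dp.le, fun h0 =>
    h.hyp.sb.dp.fin (Subgroup.relIndex_eq_zero_of_le_right inf_le_right h0)⟩
  obtain ⟨D, hD⟩ : ∃ D : Subgroup G, DP (C ⊓ P) D := by
    refine exists_DP ?_ (art_mono inf_le_right h.hyp.sa.dp.dc.art)
    intro x hx y hy
    exact h.hyp.sa.dp.dc.comm x hx.2 y hy.2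
  have hD2 : DP (C ⊓ A) D := by
    refine ⟨hD.dc, hD.le.trans (inf_le_inf_left C h.hyp.sa.dp.le), ?_⟩
    refine Subgroup.relIndex_ne_zero_trans hD.fin ?_
    rw [inf_comm C P, inf_comm C A]
    exact Subgroup.relIndex_inter_ne_zero h.hyp.sa.dp.fin C
  have hDP : D ≤ P := hD.le.trans inf_le_right
  have hDC : D ≤ C := hD.le.trans inf_le_left
  -- `C ⊓ B` is abelian
  have hab : ∀ x ∈ C ⊓ B, ∀ y ∈ C ⊓ B, x * y = y * x := by
    have hdec : ∀ x ∈ C ⊓ B, ∃ x0 ∈ B0, x0 * b = b * x0 ∧ (x = x0 ∨ x = x0 * b) := by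
      rintro x ⟨hxC, hxB⟩
      have hxb := (hCm x).mp hxC
      by_cases hx0 : x ∈ B0
      · exact ⟨x, hx0, hxb, Or.inl rfl⟩
      · refine ⟨x * b⁻¹, h.hyp.sb.idx x hxB _ (B.inv_mem hb) hx0 hbi0, ?_, Or.inr (by group)⟩
        have c1 : Commute x b := hxb
        exact c1.mul_left (Commute.refl b).inv_left
    intro x hx y hy
    obtain ⟨x0, hx0, hxb, hx'⟩ := hdec x hx
    obtain ⟨y0, hy0, hyb, hy'⟩ := hdec y hy
    have c1 : Commute x0 b := hxb
    have c2 : Commute y0 b := hyb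
    have c3 : Commute x0 y0 := h.hyp.sb.comm0 x0 hx0 y0 hy0
    have c4 : Commute x y := by
      rcases hx' with rfl | rfl <;> rcases hy' with rfl | rfl
      · exact c3
      · exact c3.mul_right c1
      · exact c3.mul_left c2.symm
      · exact (c3.mul_right c1).mul_left (c2.symm.mul_right (Commute.refl b))
    exact c4
  have hsideB : Side (C ⊓ B) (C ⊓ B) Q :=
    ⟨hDQ, le_rfl, hab, fun _ hx _ _ hx0 => absurd hx hx0⟩
  have hsideA : Side (C ⊓ A) (A0 ⊓ (C ⊓ A)) D := h.hyp.sa.restrict inf_le_right hD2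
  have hfac' : ∀ g ∈ C, ∃ b' ∈ C ⊓ B, ∃ a ∈ C ⊓ A, g = b' * a := by
    intro g hg
    obtain ⟨a, ha, b', hb', he⟩ := hfac g⁻¹ (C.inv_mem hg)
    refine ⟨b'⁻¹, (C ⊓ B).inv_mem hb', a⁻¹, (C ⊓ A).inv_mem ha, ?_⟩
    rw [← mul_inv_rev, ← he, inv_inv]
  have hH := Hyp.sub (inf_le_left : C ⊓ B ≤ C) (inf_le_left : C ⊓ A ≤ C) hfac' hsideB hsideA
  have hcomm := comm_of_abelian ↥C _ _ _ _ _ _ hH le_rfl
  have hDbot : D = ⊥ := by
    rw [eq_bot_iff]
    intro y hy
    rw [Subgroup.mem_bot]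
    by_contra hy1
    apply not_le_Nz h
    intro q hq
    refine centr_le h.symm (h.hyp.sa.le_A0 (hDP hy)) hy1 (hA.zpowers_Nz (hDP hy)) ?_
    have h1 := hcomm ⟨q, hQC hq⟩ hq ⟨y, hDC hy⟩ hy
    exact congrArg Subtype.val h1
  refine tA b hbN hbb (inv_of_fin h.hyp.sa.dp.dc hbN hbb ?_)
  have h1 := hD.fin
  rw [hDbot, Subgroup.relIndex_bot_left] at h1
  have h2 : ((C ⊓ P : Subgroup G) : Set G).Finite := Nat.finite_of_card_ne_zero h1
  rw [inf_comm] at h2
  exact h2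

/-- Not both factors have a central involution in the abelian subgroups. -/
theorem not_both (h : Cfg A A0 P B B0 Q) (hA : PMi A P) (hB : PMi B Q) (tA : NoInv P)
    (tB : NoInv Q) {x z : G} (hxA : x ∈ A0) (hx2 : x * x = 1) (hx1 : x ≠ 1)
    (hxc : ∀ a ∈ A, a * x = x * a) (hzB : z ∈ B0) (hz2 : z * z = 1) (hz1 : z ≠ 1)
    (hzc : ∀ b ∈ B, b * z = z * b) : False := by
  obtain ⟨w, e, hw1, hwx, hwz, -, -⟩ := exists_w h hxA hx2 hx1 hxc hzB hz2 hz1 hzc
  exact hw1 (disj h (centr_eq h hA hB tA tB hxA hx1 hxc hwx)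
    (centr_eq h.symm hB hA tB tA hzB hz1 hzc hwz))

end H25.AB
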