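import Pool.Agent.H25.AB.Pm1

/-! The even factor against a central-by-finite odd factor. -/

namespace H25.AB

open Subgroup Pointwise H36.CH

variable {G : Type} [Group G] {A A0 P B B0 Q : Subgroup G}

/-- An element of `B` outside of `B0` which commutes with a nontrivial element of `A0`
normalises `P`. -/
theorem mem_Nz_of_comm (h : Cfg A A0 P B B0 Q) {c k : G} (hc : c ∈ A0) (hc1 : c ≠ 1) (hk : k ∈ B)
    (hk0 : k ∉ B0) (hck : c * k = k * c) : k ∈ Nz P := by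
  have hki0 : k⁻¹ ∉ B0 := fun h2 => hk0 (by simpa using B0.inv_mem h2)
  set C : Subgroup G := Subgroup.centralizer {c} with hC
  have hCm : ∀ g : G, g ∈ C ↔ g * c = c * g := by
    intro g
    rw [hC, Subgroup.mem_centralizer_singleton_iff]
  have hA0C : A0 ≤ C := by
    intro x hx
    rw [hCm]
    exact h.hyp.sa.comm0 x hx c hc
  have hkC : k ∈ C := by rw [hCm]; exact hck.symm
  obtain ⟨D, hD⟩ : ∃ D : Subgroup G, DP (C ⊓ Q) D := by
    refine exists_DP ?_ (art_mono inf_le_right h.hyp.sb.dp.dc.art)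
    intro x hx y hy
    exact h.hyp.sb.dp.dc.comm x hx.2 y hy.2
  have hDQ : D ≤ Q := hD.le.trans inf_le_right
  have hDC : D ≤ C := hD.le.trans inf_le_left
  have hQB0 : Q ≤ B0 := h.hyp.sb.le_A0
  -- `D` is normal in `B`
  have hkD : k ∈ Nz D := by
    refine hD.dc.mem_Nz k (hD.dc.conj_le hD.fin k ?_)
    intro x hx
    refine ⟨C.mul_mem (C.mul_mem hkC (hDC hx)) (C.inv_mem hkC), ?_⟩
    exact (h.hyp.sb.dp.le_Nz hk x (hDQ hx)).1
  have hB0D : B0 ≤ Nz D := by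
    intro x hx y hy
    have hc0 := h.hyp.sb.comm0 x hx y (hQB0 (hDQ hy))
    refine ⟨?_, ?_⟩
    · rw [hc0, mul_inv_cancel_right]; exact hy
    · rw [mul_assoc, ← hc0, inv_mul_cancel_left]; exact hy
  have hBD : B ≤ Nz D := by
    intro x hx
    by_cases hx0 : x ∈ B0
    · exact hB0D hx0
    · have h1 : x * k⁻¹ ∈ B0 := h.hyp.sb.idx x hx _ (B.inv_mem hk) hx0 hki0
      have h2 := (Nz D).mul_mem (hB0D h1) hkD
      rwa [inv_mul_cancel_right] at h2
  by_cases hDbot : D = ⊥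
  · -- `C ⊓ B` is finite
    have hQfin : ((C ⊓ Q : Subgroup G) : Set G).Finite := by
      have h1 := hD.fin
      rw [hDbot, Subgroup.relIndex_bot_left] at h1
      exact Nat.finite_of_card_ne_zero h1
    have hBfin : ((C ⊓ B : Subgroup G) : Set G).Finite := by
      refine finite_of_relIndex (P := Q) ?_ ?_
      · intro h0
        exact h.hyp.sb.dp.fin (Subgroup.relIndex_eq_zero_of_le_right inf_le_right h0)
      · refine hQfin.subset ?_
        rintro x ⟨hx1, hx2⟩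
        exact ⟨hx2.1, hx1⟩
    -- `A0` has finite index in `C`
    have hA0L : A0.relIndex C ≠ 0 := by
      by_cases hex : ∃ l ∈ C, ∃ a ∈ A, ∃ b ∈ B, a ∉ A0 ∧ l = a * b
      · obtain ⟨l1, hl1, a1, ha1, b1, hb1, ha10, hl1e⟩ := hex
        refine relIndex_of_reps ((((C ⊓ B : Subgroup G) : Set G)) ∪
          (fun y => y * l1⁻¹) '' (((C ⊓ B : Subgroup G) : Set G)))
          (hBfin.union (hBfin.image _)) ?_
        intro g hg
        obtain ⟨a, ha, b, hb, he⟩ := h.hyp.fac g⁻¹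
        have hgi : g = (a * b)⁻¹ := by rw [← he, inv_inv]
        by_cases ha0 : a ∈ A0
        · refine ⟨b⁻¹, Or.inl (Subgroup.inv_mem _ ⟨?_, hb⟩), ?_⟩
          · have h1 := C.mul_mem (C.inv_mem (hA0C ha0)) (C.inv_mem hg)
            rwa [he, inv_mul_cancel_left] at h1
          · rw [hgi]
            have h1 : b⁻¹⁻¹ * (a * b)⁻¹ = a⁻¹ := by group
            rw [h1]
            exact A0.inv_mem ha0
        · have hai0 : a1⁻¹ ∉ A0 := fun h2 => ha10 (by simpa using A0.inv_mem h2)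
          have h1 : a * a1⁻¹ ∈ A0 := h.hyp.sa.idx a ha _ (A.inv_mem ha1) ha0 hai0
          have h2 : l1⁻¹ * (a * a1⁻¹)⁻¹ * g⁻¹ ∈ C :=
            C.mul_mem (C.mul_mem (C.inv_mem hl1) (C.inv_mem (hA0C h1))) (C.inv_mem hg)
          have h3 : l1⁻¹ * (a * a1⁻¹)⁻¹ * g⁻¹ = b1⁻¹ * b := by
            rw [he, hl1e]; group
          refine ⟨(b1⁻¹ * b)⁻¹ * l1⁻¹, Or.inr ⟨(b1⁻¹ * b)⁻¹, ?_, rfl⟩, ?_⟩
          · refine Subgroup.inv_mem _ ⟨?_, B.mul_mem (B.inv_mem hb1) hb⟩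
            rw [← h3]; exact h2
          · have h4 : ((b1⁻¹ * b)⁻¹ * l1⁻¹)⁻¹ * g = (a * a1⁻¹)⁻¹ := by
              rw [hgi, hl1e]; group
            rw [h4]
            exact A0.inv_mem h1
      · push Not at hex
        refine relIndex_of_reps (((C ⊓ B : Subgroup G) : Set G)) hBfin ?_
        intro g hg
        obtain ⟨a, ha, b, hb, he⟩ := h.hyp.fac g⁻¹
        have hgi : g = (a * b)⁻¹ := by rw [← he, inv_inv]
        have ha0 : a ∈ A0 := by
          by_contra ha0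
          exact hex g⁻¹ (C.inv_mem hg) a ha b hb ha0 he
        refine ⟨b⁻¹, Subgroup.inv_mem _ ⟨?_, hb⟩, ?_⟩
        · have h1 := C.mul_mem (C.inv_mem (hA0C ha0)) (C.inv_mem hg)
          rwa [he, inv_mul_cancel_left] at h1
        · rw [hgi]
          have h1 : b⁻¹⁻¹ * (a * b)⁻¹ = a⁻¹ := by group
          rw [h1]
          exact A0.inv_mem ha0
    have hPL : P.relIndex C ≠ 0 :=
      Subgroup.relIndex_ne_zero_trans (side0 h.hyp.sa).dp.fin hA0L
    have hDPL : DP C P := ⟨h.hyp.sa.dp.dc, h.hyp.sa.le_A0.trans hA0C, hPL⟩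
    exact hDPL.le_Nz hkC
  · exfalso
    -- `c` normalises `Q`
    have hcM : c ∈ Nz Q := by
      refine h.symm.Nz_le (hDQ.trans hQB0) hDbot hBD ?_
      intro y hy
      have hyc := (hCm y).mp (hDC hy)
      refine ⟨?_, ?_⟩
      · rw [← hyc, mul_inv_cancel_right]; exact hy
      · rw [mul_assoc, hyc, inv_mul_cancel_left]; exact hy
    apply hDbot
    rw [eq_bot_iff]
    intro y hy
    rw [Subgroup.mem_bot]
    refine eq_one_of_normal h.symm hBD ?_ hy
    intro x hx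
    exact centr_Nz h hc hc1 hcM ((hCm x).mp (hDC hx))

/-- The torsion trick: one step. -/
theorem torsion_step (h : Cfg A A0 P B B0 Q) {x k : G} (hx2 : x * x = 1)
    (hxc : ∀ a ∈ A, a * x = x * a) (hk2 : k * k = 1) :
    ∃ a ∈ A, ∃ b ∈ B, (x * k) ^ 3 = a⁻¹ * (x * (b⁻¹ * k * b)) * a := by
  obtain ⟨b, hb, a, ha, hab⟩ := h.symm.hyp.fac (x * k)
  refine ⟨a, ha, b, hb, ?_⟩
  have h2 : a⁻¹ * (b⁻¹ * k * b) * a = (x * k)⁻¹ * k * (x * k) := by
    rw [hab]; group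
  have h3 : a⁻¹ * x * a = x := by
    rw [mul_assoc, ← hxc a ha, inv_mul_cancel_left]
  have hxi : x⁻¹ = x := inv_eq_of_mul_eq_one_left hx2
  have hki : k⁻¹ = k := inv_eq_of_mul_eq_one_left hk2
  symm
  calc a⁻¹ * (x * (b⁻¹ * k * b)) * a = (a⁻¹ * x * a) * (a⁻¹ * (b⁻¹ * k * b) * a) := by group
    _ = x * ((x * k)⁻¹ * k * (x * k)) := by rw [h2, h3]
    _ = x * (k⁻¹ * x⁻¹ * k * (x * k)) := by rw [mul_inv_rev]
    _ = x * (k * x * k * (x * k)) := by rw [hxi, hki]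
    _ = (x * k) ^ 3 := by rw [pow_succ, pow_two]; group

theorem conj_pow_inv {a y : G} (n : ℕ) : (a⁻¹ * y * a) ^ n = a⁻¹ * y ^ n * a := by
  have h7 := conj_pow (a := a⁻¹) (b := y) (i := n)
  rw [inv_inv] at h7
  exact h7

/-- If `x` is a central involution of `A` and the involution `k` of `B` has finitely many
conjugates in `B`, then `x * k` has finite order. -/
theorem finite_order_of_class (h : Cfg A A0 P B B0 Q) {x : G} (hx2 : x * x = 1)
    (hxc : ∀ a ∈ A, a * x = x * a) {s : G} (hs2 : s * s = 1)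
    (hfin : {y | ∃ b ∈ B, y = b⁻¹ * s * b}.Finite) :
    ∃ m : ℕ, 0 < m ∧ (x * s) ^ m = 1 := by
  set K : Set G := {y | ∃ b ∈ B, y = b⁻¹ * s * b} with hK
  have hK2 : ∀ k ∈ K, k * k = 1 := by
    rintro k ⟨b, hb, rfl⟩
    calc b⁻¹ * s * b * (b⁻¹ * s * b) = b⁻¹ * (s * s) * b := by group
      _ = 1 := by rw [hs2, mul_one, inv_mul_cancel]
  have hKc : ∀ k ∈ K, ∀ b ∈ B, b⁻¹ * k * b ∈ K := by
    rintro k ⟨c, hc, rfl⟩ b hb
    exact ⟨c * b, B.mul_mem hc hb, by group⟩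
  have step : ∀ k : K, ∃ k' : K, ∃ a ∈ A, (x * (k : G)) ^ 3 = a⁻¹ * (x * (k' : G)) * a := by
    rintro ⟨k, hk⟩
    obtain ⟨a, ha, b, hb, he⟩ := torsion_step h hx2 hxc (hK2 k hk)
    exact ⟨⟨_, hKc k hk b hb⟩, a, ha, he⟩
  choose f a haA hf using step
  have iter : ∀ n : ℕ, ∀ k : K, ∃ c ∈ A,
      (x * (k : G)) ^ 3 ^ n = c⁻¹ * (x * ((f^[n] k : K) : G)) * c := by
    intro n
    induction n with
    | zero => intro k; exact ⟨1, A.one_mem, by simp⟩
    | succ n ih =>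
      intro k
      obtain ⟨c, hc, hce⟩ := ih (f k)
      refine ⟨c * a k, A.mul_mem hc (haA k), ?_⟩
      rw [Function.iterate_succ_apply, pow_succ', pow_mul, hf k, conj_pow_inv, hce]
      group
  have hsK : s ∈ K := ⟨1, B.one_mem, by group⟩
  have hFin : Finite K := hfin.to_subtype
  -- two iterates agree
  obtain ⟨i, j, hij, he⟩ : ∃ i j : ℕ, i < j ∧ f^[i] ⟨s, hsK⟩ = f^[j] ⟨s, hsK⟩ := by
    obtain ⟨i, j, hne, he⟩ := Finite.exists_ne_map_eq_of_infinite (fun n : ℕ => f^[n] ⟨s, hsK⟩)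
    rcases lt_or_gt_of_ne hne with h1 | h1
    · exact ⟨i, j, h1, he⟩
    · exact ⟨j, i, h1, he.symm⟩
  set k0 : K := f^[i] ⟨s, hsK⟩ with hk0
  have hper : f^[j - i] k0 = k0 := by
    rw [hk0, ← Function.iterate_add_apply, Nat.sub_add_cancel hij.le]
    exact he.symm
  -- the product with `k0` has finite order
  obtain ⟨c, hc, hce⟩ := iter (j - i) k0
  rw [hper] at hce
  obtain ⟨n, hn, hn1⟩ := h.hyp.sa.dp.torsion hc
  have h4 : ∀ l : ℕ, (c ^ l)⁻¹ * (x * (k0 : G)) * c ^ l = (x * (k0 : G)) ^ (3 ^ (j - i)) ^ l := by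
    intro l
    induction l with
    | zero => simp
    | succ l ih =>
      have h5 : (c ^ (l + 1))⁻¹ * (x * (k0 : G)) * c ^ (l + 1) =
          c⁻¹ * ((c ^ l)⁻¹ * (x * (k0 : G)) * c ^ l) * c := by
        rw [pow_succ]; group
      rw [h5, ih, ← conj_pow_inv, ← hce, ← pow_mul, pow_succ, mul_comm]
  have h5 := h4 n
  rw [hn1, inv_one, one_mul, mul_one] at h5
  have h6 : 1 < 3 ^ (j - i) := Nat.one_lt_pow (by omega) (by norm_num)
  have h6' : 1 < (3 ^ (j - i)) ^ n := Nat.one_lt_pow hn.ne' h6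
  have hk0fin : (x * (k0 : G)) ^ ((3 ^ (j - i)) ^ n - 1) = 1 := by
    have h7 : (x * (k0 : G)) ^ ((3 ^ (j - i)) ^ n - 1) * (x * (k0 : G)) = 1 * (x * (k0 : G)) := by
      rw [one_mul, ← pow_succ, Nat.sub_add_cancel h6'.le]
      exact h5.symm
    exact mul_right_cancel h7
  -- back to `s`
  obtain ⟨d, hd, hde⟩ := iter i ⟨s, hsK⟩
  rw [← hk0] at hde
  refine ⟨3 ^ i * ((3 ^ (j - i)) ^ n - 1), ?_, ?_⟩
  · have : 0 < 3 ^ i := pow_pos (by norm_num) _
    have h8 : 0 < (3 ^ (j - i)) ^ n - 1 := by omega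
    exact Nat.mul_pos this h8
  · rw [pow_mul]
    have h8 : (x * s) ^ 3 ^ i = d⁻¹ * (x * (k0 : G)) * d := hde
    rw [h8, conj_pow_inv, hk0fin, mul_one, inv_mul_cancel]

end H25.AB
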