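import Pool.Agent.H36.CH.Final

/-! Minimal configurations: facts which use the theorem for one abelian factor. -/

namespace H25.AB

open Subgroup Pointwise H36.CH

variable {G : Type} [Group G] {A A0 P B B0 Q : Subgroup G}

theorem side0 (h : Side A A0 P) : Side A0 A0 P :=
  ⟨⟨h.dp.dc, h.le_A0, fun h0 => h.dp.fin (Subgroup.relIndex_eq_zero_of_le_right h.le0 h0)⟩, le_rfl,
    h.comm0, fun _ hx _ _ hx0 => absurd hx hx0⟩

/-- The set `A * B0` is not the whole group. -/
theorem not_AB0 (h : Cfg A A0 P B B0 Q) : ¬ ∀ g : G, ∃ a ∈ A, ∃ b ∈ B0, g = a * b := by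
  intro hall
  apply h.ne
  intro u hu v hv
  have hH : Hyp A A0 P B0 B0 Q := ⟨hall, h.hyp.sa, side0 h.hyp.sb⟩
  exact (comm_of_abelian G B0 B0 Q A A0 P hH.symm le_rfl v hv u hu).symm

/-- The factors meet trivially. -/
theorem disj (h : Cfg A A0 P B B0 Q) {x : G} (hx : x ∈ A) (hxB : x ∈ B) : x = 1 := by
  by_contra hx1
  by_cases hx0 : x ∈ A0
  · have hxB0 : x ∉ B0 := fun h1 => hx1 (h.inf0 hx0 h1)
    apply not_AB0 h
    intro g
    obtain ⟨a, ha, b, hb, rfl⟩ := h.hyp.fac g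
    by_cases hb0 : b ∈ B0
    · exact ⟨a, ha, b, hb0, rfl⟩
    · exact ⟨a * x⁻¹, A.mul_mem ha (A.inv_mem hx), x * b, h.hyp.sb.idx x hxB b hb hxB0 hb0,
        by group⟩
  · apply not_AB0 h.symm
    intro g
    obtain ⟨b, hb, a, ha, rfl⟩ := h.symm.hyp.fac g
    by_cases ha0 : a ∈ A0
    · exact ⟨b, hb, a, ha0, rfl⟩
    · exact ⟨b * x⁻¹, B.mul_mem hb (B.inv_mem hxB), x * a, h.hyp.sa.idx x hx a ha hx0 ha0,
        by group⟩

/-- No element of `A` different from one is conjugate to an element of `B`. -/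
theorem disj_conj (h : Cfg A A0 P B B0 Q) {x g : G} (hx : x ∈ A) (hg : g * x * g⁻¹ ∈ B) :
    x = 1 := by
  obtain ⟨b, hb, a, ha, rfl⟩ := h.symm.hyp.fac g
  have h1 : a * x * a⁻¹ ∈ B := by
    have h2 := B.mul_mem (B.mul_mem (B.inv_mem hb) hg) hb
    have h3 : b⁻¹ * (b * a * x * (b * a)⁻¹) * b = a * x * a⁻¹ := by group
    rwa [h3] at h2
  have h4 := disj h (A.mul_mem (A.mul_mem ha hx) (A.inv_mem ha)) h1
  have h5 : x = a⁻¹ * (a * x * a⁻¹) * a := by group
  rw [h5, h4]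
  group

/-- A normal subgroup of `A` inside the normaliser of `Q` is trivial. -/
theorem eq_one_of_normal (h : Cfg A A0 P B B0 Q) {X : Subgroup G} (hX : A ≤ Nz X)
    (hXM : X ≤ Nz Q) {y : G} (hy : y ∈ X) : y = 1 := by
  by_contra hy1
  have hW : Subgroup.normalClosure {y} ≤ Nz Q := by
    rw [Subgroup.normalClosure, Subgroup.closure_le]
    intro x hx
    rw [Group.mem_conjugatesOfSet_iff] at hx
    obtain ⟨u, hu, hux⟩ := hx
    rw [Set.mem_singleton_iff] at hu
    subst hu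
    rw [isConj_iff] at hux
    obtain ⟨g, rfl⟩ := hux
    obtain ⟨b, hb, a, ha, rfl⟩ := h.symm.hyp.fac g
    have h1 : a * u * a⁻¹ ∈ X := (hX ha u hy).1
    have h2 : b * a * u * (b * a)⁻¹ = b * (a * u * a⁻¹) * b⁻¹ := by group
    rw [h2]
    have hbQ : b ∈ Nz Q := h.hyp.sb.dp.le_Nz hb
    exact (Nz Q).mul_mem ((Nz Q).mul_mem hbQ (hXM h1)) ((Nz Q).inv_mem hbQ)
  have hne : Subgroup.normalClosure {y} ≠ ⊥ := by
    intro h1
    apply hy1
    have h2 : y ∈ Subgroup.normalClosure {y} := Subgroup.subset_normalClosure rfl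
    rwa [h1, Subgroup.mem_bot] at h2
  have htop := h.symm.sup_normal_top _ Subgroup.normalClosure_normal hne
  apply h.symm.Nz_ne_top
  rw [eq_top_iff, ← htop]
  exact sup_le h.hyp.sb.dp.le_Nz hW

theorem le_Nz_zpowers_of_comm {z : G} (hz : ∀ x ∈ B, x * z = z * x) :
    B ≤ Nz (Subgroup.zpowers z) := by
  intro b hb y hy
  obtain ⟨m, rfl⟩ := Subgroup.mem_zpowers_iff.mp hy
  have hc : b * z ^ m = z ^ m * b := (Commute.zpow_right (show Commute b z from hz b hb) m).eq
  refine ⟨?_, ?_⟩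
  · rw [hc, mul_inv_cancel_right]; exact hy
  · rw [mul_assoc, ← hc, inv_mul_cancel_left]; exact hy

/-- Centralisers of normal cyclic subgroups. -/
theorem centr_le (h : Cfg A A0 P B B0 Q) {z : G} (hz : z ∈ B0) (hz1 : z ≠ 1)
    (hzc : B ≤ Nz (Subgroup.zpowers z)) {y : G} (hy : y * z = z * y) : y ∈ Nz Q := by
  have hX : Subgroup.zpowers z ≤ B0 := by rw [Subgroup.zpowers_le]; exact hz
  have hX1 : Subgroup.zpowers z ≠ ⊥ := by
    intro h1
    rw [Subgroup.zpowers_eq_bot] at h1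
    exact hz1 h1
  refine h.symm.Nz_le hX hX1 hzc ?_
  intro x hx
  obtain ⟨m, rfl⟩ := Subgroup.mem_zpowers_iff.mp hx
  have hc : y * z ^ m = z ^ m * y := (Commute.zpow_right (show Commute y z from hy) m).eq
  refine ⟨?_, ?_⟩
  · rw [hc, mul_inv_cancel_right]; exact hx
  · rw [mul_assoc, ← hc, inv_mul_cancel_left]; exact hx

/-- A subgroup containing `A0` is transitive on the cosets of `B` or a finite extension of `P`
which normalises `P`. -/
theorem le_or_trans (h : Cfg A A0 P B B0 Q) (L : Subgroup G) (hL : A0 ≤ L) :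
    (∀ g : G, ∃ l ∈ L, ∃ b ∈ B, g = l * b) ∨ (P.relIndex L ≠ 0 ∧ L ≤ Nz P) ∨ P ⊔ Q ≤ L := by
  by_cases htr : ∀ g : G, ∃ l ∈ L, ∃ b ∈ B, g = l * b
  · exact Or.inl htr
  · right
    push Not at htr
    obtain ⟨g0, hg0⟩ := htr
    have hfac : ∀ l ∈ L, ∃ a ∈ A0, ∃ b ∈ B, l = a * b := by
      intro l hl
      obtain ⟨a, ha, b, hb, he⟩ := h.hyp.fac l
      by_cases ha0 : a ∈ A0
      · exact ⟨a, ha0, b, hb, he⟩
      · exfalso
        obtain ⟨a', ha', b', hb', he'⟩ := h.hyp.fac g0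
        by_cases ha0' : a' ∈ A0
        · exact hg0 a' (hL ha0') b' hb' he'
        · have hai : a⁻¹ ∉ A0 := fun h2 => ha0 (by simpa using A0.inv_mem h2)
          have h1 := h.hyp.sa.idx a' ha' a⁻¹ (A.inv_mem ha) ha0' hai
          refine hg0 (a' * a⁻¹ * l) (L.mul_mem (hL h1) hl) (b⁻¹ * b')
            (B.mul_mem (B.inv_mem hb) hb') ?_
          rw [he', he]
          group
    by_cases hQL : Q ≤ L
    · right
      exact sup_le (h.hyp.sa.le_A0.trans hL) hQL
    left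
    obtain ⟨D, hD⟩ : ∃ D : Subgroup G, DP (L ⊓ Q) D := by
      refine exists_DP ?_ (art_mono inf_le_right h.hyp.sb.dp.dc.art)
      intro x hx y hy
      exact h.hyp.sb.dp.dc.comm x hx.2 y hy.2
    have hD2 : DP (L ⊓ B) D := by
      refine ⟨hD.dc, hD.le.trans (inf_le_inf_left L h.hyp.sb.dp.le), ?_⟩
      refine Subgroup.relIndex_ne_zero_trans hD.fin ?_
      rw [inf_comm L Q, inf_comm L B]
      exact Subgroup.relIndex_inter_ne_zero h.hyp.sb.dp.fin L
    have hDQ : D ≤ Q := hD.le.trans inf_le_right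
    have hDL : D ≤ L := hD.le.trans inf_le_left
    have hfacL : ∀ g ∈ L, ∃ a ∈ A0, ∃ b ∈ L ⊓ B, g = a * b := by
      intro g hg
      obtain ⟨a, ha, b, hb, rfl⟩ := hfac g hg
      refine ⟨a, ha, b, ⟨?_, hb⟩, rfl⟩
      have h1 := L.mul_mem (L.inv_mem (hL ha)) hg
      rwa [inv_mul_cancel_left] at h1
    have hside : Side (L ⊓ B) (B0 ⊓ (L ⊓ B)) D := h.hyp.sb.restrict inf_le_right hD2
    have hH := Hyp.sub hL (inf_le_left : L ⊓ B ≤ L) hfacL (side0 h.hyp.sa) hside
    have hcomm := comm_of_abelian ↥L _ _ _ _ _ _ hH le_rfl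
    have hDbot : D = ⊥ := by
      rw [eq_bot_iff]
      intro y hy
      rw [Subgroup.mem_bot]
      refine h.cent y ?_ (fun x hx => h.hyp.sb.dp.dc.comm y (hDQ hy) x hx)
      intro x hx
      have h1 := hcomm ⟨x, hL (h.hyp.sa.le_A0 hx)⟩ hx ⟨y, hDL hy⟩ hy
      exact (congrArg Subtype.val h1).symm
    have hLBfin : ((L ⊓ B : Subgroup G) : Set G).Finite := by
      have h1 := hD2.fin
      rw [hDbot, Subgroup.relIndex_bot_left] at h1
      exact Nat.finite_of_card_ne_zero h1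
    have hA0L : A0.relIndex L ≠ 0 := by
      refine relIndex_of_reps (((L ⊓ B : Subgroup G) : Set G)) hLBfin ?_
      intro g hg
      obtain ⟨a, ha, b, hb, he⟩ := hfacL g⁻¹ (L.inv_mem hg)
      refine ⟨b⁻¹, (L ⊓ B).inv_mem hb, ?_⟩
      have h1 : g = b⁻¹ * a⁻¹ := by rw [← mul_inv_rev, ← he, inv_inv]
      rw [h1, inv_inv, mul_inv_cancel_left]
      exact A0.inv_mem ha
    have hPL : P.relIndex L ≠ 0 :=
      Subgroup.relIndex_ne_zero_trans (side0 h.hyp.sa).dp.fin hA0L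
    have hDPL : DP L P := ⟨h.hyp.sa.dp.dc, h.hyp.sa.le_A0.trans hL, hPL⟩
    exact ⟨hPL, hDPL.le_Nz⟩

/-- An element of `A0` which normalises `Q` has its centraliser in the normaliser of `P`. -/
theorem centr_Nz (h : Cfg A A0 P B B0 Q) {y g : G} (hy : y ∈ A0) (hy1 : y ≠ 1) (hyM : y ∈ Nz Q)
    (hg : g * y = y * g) : g ∈ Nz P := by
  have hA0L : A0 ≤ Subgroup.centralizer {y} := by
    intro x hx
    rw [Subgroup.mem_centralizer_singleton_iff]
    exact h.hyp.sa.comm0 x hx y hy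
  rcases le_or_trans h (Subgroup.centralizer {y}) hA0L with h1 | h1 | h1
  · exfalso
    apply hy1
    have hW : Subgroup.normalClosure {y} ≤ Nz Q := by
      rw [Subgroup.normalClosure, Subgroup.closure_le]
      intro x hx
      rw [Group.mem_conjugatesOfSet_iff] at hx
      obtain ⟨u, hu, hux⟩ := hx
      rw [Set.mem_singleton_iff] at hu
      subst hu
      rw [isConj_iff] at hux
      obtain ⟨g, rfl⟩ := hux
      obtain ⟨l, hl, b, hb, he⟩ := h1 g⁻¹
      rw [Subgroup.mem_centralizer_singleton_iff] at hl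
      have hge : g = b⁻¹ * l⁻¹ := by rw [← mul_inv_rev, ← he, inv_inv]
      have hconj : g * u * g⁻¹ = b⁻¹ * u * b := by
        rw [hge]
        calc b⁻¹ * l⁻¹ * u * (b⁻¹ * l⁻¹)⁻¹ = b⁻¹ * l⁻¹ * (u * l) * b := by group
          _ = b⁻¹ * l⁻¹ * (l * u) * b := by rw [hl]
          _ = _ := by group
      rw [hconj]
      have hbQ : b ∈ Nz Q := h.hyp.sb.dp.le_Nz hb
      exact (Nz Q).mul_mem ((Nz Q).mul_mem ((Nz Q).inv_mem hbQ) hyM) hbQ
    by_contra hy2
    have hne : Subgroup.normalClosure {y} ≠ ⊥ := by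
      intro h1
      apply hy2
      have h2 : y ∈ Subgroup.normalClosure {y} := Subgroup.subset_normalClosure rfl
      rwa [h1, Subgroup.mem_bot] at h2
    have htop := h.symm.sup_normal_top _ Subgroup.normalClosure_normal hne
    apply h.symm.Nz_ne_top
    rw [eq_top_iff, ← htop]
    exact sup_le h.hyp.sb.dp.le_Nz hW
  · exact h1.2 (by rw [Subgroup.mem_centralizer_singleton_iff]; exact hg)
  · exfalso
    apply hy1
    refine h.cent y ?_ ?_
    · intro x hx
      have h2 := h1 (le_sup_left (a := P) hx)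
      rw [Subgroup.mem_centralizer_singleton_iff] at h2
      exact h2.symm
    · intro x hx
      have h2 := h1 (le_sup_right (a := P) hx)
      rw [Subgroup.mem_centralizer_singleton_iff] at h2
      exact h2.symm

/-- An element of `A0` different from one commutes with no generator of a nontrivial cyclic
subgroup of `B0` which is normal in `B`. -/
theorem star (h : Cfg A A0 P B B0 Q) {y z : G} (hy : y ∈ A0) (hy1 : y ≠ 1) (hz : z ∈ B0)
    (hz1 : z ≠ 1) (hzc : B ≤ Nz (Subgroup.zpowers z)) : y * z ≠ z * y := by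
  intro hcomm
  have hyM : y ∈ Nz Q := centr_le h hz hz1 hzc hcomm
  have hzN : z ∈ Nz P := centr_Nz h hy hy1 hyM hcomm.symm
  apply hz1
  refine eq_one_of_normal h.symm hzc ?_ (Subgroup.mem_zpowers z)
  rw [Subgroup.zpowers_le]
  exact hzN

end H25.AB
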