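import Pool.Agent.H25.AB.Inv

/-! Two involutions, central in the two factors: the dihedral group they generate. -/

namespace H25.AB

open Subgroup Pointwise H36.CH

variable {G : Type} [Group G] {A A0 P B B0 Q : Subgroup G}

section dihedral

variable {x z : G}

/-- In a dihedral group the reflection inverts the rotation. -/
theorem zpow_conj (hx : x * x = 1) (hz : z * z = 1) (n : ℤ) :
    z * (x * z) ^ n * z⁻¹ = ((x * z) ^ n)⁻¹ := by
  have hxi : x⁻¹ = x := inv_eq_of_mul_eq_one_left hx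
  have hzi : z⁻¹ = z := inv_eq_of_mul_eq_one_left hz
  have h1 : z * (x * z) * z⁻¹ = (x * z)⁻¹ := by
    rw [mul_inv_rev, hxi]
    rw [hzi]
    calc z * (x * z) * z = z * x * (z * z) := by group
      _ = z * x := by rw [hz, mul_one]
  rw [← conj_zpow, h1, inv_zpow]

theorem zpow_conj' (hx : x * x = 1) (hz : z * z = 1) (n : ℤ) :
    x * (x * z) ^ n * x⁻¹ = ((x * z) ^ n)⁻¹ := by
  have hxi : x⁻¹ = x := inv_eq_of_mul_eq_one_left hx
  have hzi : z⁻¹ = z := inv_eq_of_mul_eq_one_left hz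
  have h1 : x * (x * z) * x⁻¹ = (x * z)⁻¹ := by
    rw [mul_inv_rev, hxi, hzi]
    calc x * (x * z) * x = (x * x) * z * x := by group
      _ = z * x := by rw [hx, one_mul]
  rw [← conj_zpow, h1, inv_zpow]

theorem conj_z (hx : x * x = 1) (hz : z * z = 1) (n : ℤ) :
    ((x * z) ^ n)⁻¹ * z * (x * z) ^ n = z * (x * z) ^ (2 * n) := by
  have h1 := zpow_conj hx hz n
  have h2 : ((x * z) ^ n)⁻¹ * z = z * (x * z) ^ n := by
    rw [← h1, mul_assoc, mul_assoc, inv_mul_cancel, mul_one]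
  rw [h2, mul_assoc, ← zpow_add, two_mul]

theorem conj_x (hx : x * x = 1) (hz : z * z = 1) (n : ℤ) :
    ((x * z) ^ n)⁻¹ * x * (x * z) ^ n = x * (x * z) ^ (2 * n) := by
  have h1 := zpow_conj' hx hz n
  have h2 : ((x * z) ^ n)⁻¹ * x = x * (x * z) ^ n := by
    rw [← h1, mul_assoc, mul_assoc, inv_mul_cancel, mul_one]
  rw [h2, mul_assoc, ← zpow_add, two_mul]

theorem x_eq (hz : z * z = 1) (hx : x * x = 1) : x = z * (x * z) ^ (-1 : ℤ) := by
  have hxi : x⁻¹ = x := inv_eq_of_mul_eq_one_left hx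
  have hzi : z⁻¹ = z := inv_eq_of_mul_eq_one_left hz
  rw [zpow_neg_one, mul_inv_rev, hxi, hzi, ← mul_assoc, hz, one_mul]

end dihedral

theorem conj_back {g a b : G} (h : g⁻¹ * a * g = b) : g * b * g⁻¹ = a := by
  rw [← h]
  group

/-- Conjugates of `x` and of `z` do not commute. -/
theorem no_comm (h : Cfg A A0 P B B0 Q) {x z : G} (hxA : x ∈ A0) (hx1 : x ≠ 1)
    (hxc : ∀ a ∈ A, a * x = x * a) (hzB : z ∈ B0) (hz1 : z ≠ 1) (hzc : ∀ b ∈ B, b * z = z * b)
    (g : G) : x * (g * z * g⁻¹) ≠ (g * z * g⁻¹) * x := by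
  intro hcomm
  obtain ⟨a, ha, b, hb, rfl⟩ := h.hyp.fac g
  have h1 : a * b * z * (a * b)⁻¹ = a * z * a⁻¹ := by
    calc a * b * z * (a * b)⁻¹ = a * (b * z) * b⁻¹ * a⁻¹ := by group
      _ = a * (z * b) * b⁻¹ * a⁻¹ := by rw [hzc b hb]
      _ = _ := by group
  rw [h1] at hcomm
  refine star h hxA hx1 hzB hz1 (le_Nz_zpowers_of_comm hzc) ?_
  have h2 := hxc a ha
  have h3 : a⁻¹ * (x * (a * z * a⁻¹)) * a = x * z := by
    calc a⁻¹ * (x * (a * z * a⁻¹)) * a = a⁻¹ * (x * a) * z := by group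
      _ = a⁻¹ * (a * x) * z := by rw [h2]
      _ = _ := by group
  have h4 : a⁻¹ * ((a * z * a⁻¹) * x) * a = z * x := by
    calc a⁻¹ * ((a * z * a⁻¹) * x) * a = z * a⁻¹ * (x * a) := by group
      _ = z * a⁻¹ * (a * x) := by rw [h2]
      _ = _ := by group
  rw [← h3, ← h4, hcomm]

/-- The product of the two involutions has finite order. -/
theorem finite_order (h : Cfg A A0 P B B0 Q) {x z : G} (hx2 : x * x = 1)
    (hxc : ∀ a ∈ A, a * x = x * a) (hz2 : z * z = 1) (hzc : ∀ b ∈ B, b * z = z * b) :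
    ∃ m : ℕ, 0 < m ∧ (x * z) ^ m = 1 := by
  obtain ⟨b, hb, a, ha, hab⟩ := h.symm.hyp.fac (x * z)
  have h1 : a⁻¹ * (x * z) * a = (x * z) ^ 3 := by
    have h2 : a⁻¹ * z * a = (x * z)⁻¹ * z * (x * z) := by
      rw [hab]
      calc a⁻¹ * z * a = a⁻¹ * b⁻¹ * (b * z) * a := by group
        _ = a⁻¹ * b⁻¹ * (z * b) * a := by rw [hzc b hb]
        _ = _ := by group
    have h3 : a⁻¹ * x * a = x := by
      rw [mul_assoc, ← hxc a ha, inv_mul_cancel_left]
    have hxi : x⁻¹ = x := inv_eq_of_mul_eq_one_left hx2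
    have hzi : z⁻¹ = z := inv_eq_of_mul_eq_one_left hz2
    calc a⁻¹ * (x * z) * a = (a⁻¹ * x * a) * (a⁻¹ * z * a) := by group
      _ = x * ((x * z)⁻¹ * z * (x * z)) := by rw [h2, h3]
      _ = x * (z⁻¹ * x⁻¹ * z * (x * z)) := by rw [mul_inv_rev]
      _ = x * (z * x * z * (x * z)) := by rw [hxi, hzi]
      _ = (x * z) ^ 3 := by rw [pow_succ, pow_two]; group
  obtain ⟨n, hn, hn1⟩ := h.hyp.sa.dp.torsion ha
  have h4 : ∀ k : ℕ, (a ^ k)⁻¹ * (x * z) * a ^ k = (x * z) ^ 3 ^ k := by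
    intro k
    induction k with
    | zero => simp
    | succ k ih =>
      have h5 : (a ^ (k + 1))⁻¹ * (x * z) * a ^ (k + 1) = a⁻¹ * ((a ^ k)⁻¹ * (x * z) * a ^ k) * a := by
        rw [pow_succ]; group
      have h6 : a⁻¹ * ((x * z) ^ 3 ^ k) * a = (a⁻¹ * (x * z) * a) ^ 3 ^ k := by
        have h7 := conj_pow (a := a⁻¹) (b := x * z) (i := 3 ^ k)
        rw [inv_inv] at h7
        exact h7.symm
      rw [h5, ih, h6, h1, ← pow_mul, pow_succ, mul_comm]
  have h5 := h4 n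
  rw [hn1, inv_one, one_mul, mul_one] at h5
  have h6 : 1 < 3 ^ n := Nat.one_lt_pow hn.ne' (by norm_num)
  refine ⟨3 ^ n - 1, by omega, ?_⟩
  have h7 : (x * z) ^ (3 ^ n - 1) * (x * z) = 1 * (x * z) := by
    rw [one_mul, ← pow_succ, Nat.sub_add_cancel h6.le]
    exact h5.symm
  exact mul_right_cancel h7

/-- The central involution `w` of the dihedral group generated by two involutions which are
central in the two factors. -/
theorem exists_w (h : Cfg A A0 P B B0 Q) {x z : G} (hxA : x ∈ A0) (hx2 : x * x = 1) (hx1 : x ≠ 1)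
    (hxc : ∀ a ∈ A, a * x = x * a) (hzB : z ∈ B0) (hz2 : z * z = 1) (hz1 : z ≠ 1)
    (hzc : ∀ b ∈ B, b * z = z * b) :
    ∃ w e : G, w ≠ 1 ∧ w * x = x * w ∧ w * z = z * w ∧ e⁻¹ * z * e = z * w ∧
      e⁻¹ * x * e = x * w := by
  obtain ⟨m0, hm0, hm01⟩ := finite_order h hx2 hxc hz2 hzc
  have hm : 0 < orderOf (x * z) := by
    rw [orderOf_pos_iff, isOfFinOrder_iff_pow_eq_one]
    exact ⟨m0, hm0, hm01⟩
  set m := orderOf (x * z) with hmdef
  have hρ : (x * z) ^ m = 1 := pow_orderOf_eq_one _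
  have hρz : (x * z) ^ (m : ℤ) = 1 := by rw [zpow_natCast]; exact hρ
  -- `m` is even
  rcases Nat.even_or_odd' m with ⟨k, hk | hk⟩
  swap
  · exfalso
    apply hx1
    refine disj_conj h (g := (x * z) ^ (k : ℤ)) (h.hyp.sa.le0 hxA) ?_
    have h1 := conj_z hx2 hz2 (k : ℤ)
    have h2 : (x * z) ^ (2 * (k : ℤ)) = (x * z) ^ (-1 : ℤ) := by
      have h3 : (2 * (k : ℤ)) = (m : ℤ) + (-1) := by rw [hk]; push_cast; ring
      rw [h3, zpow_add, hρz, one_mul]
    rw [h2, ← x_eq hz2 hx2] at h1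
    have h4 : (x * z) ^ (k : ℤ) * x * ((x * z) ^ (k : ℤ))⁻¹ = z := conj_back h1
    rw [h4]
    exact h.hyp.sb.le0 hzB
  set w := (x * z) ^ (k : ℤ) with hw
  have hww : w * w = 1 := by
    rw [hw, ← zpow_add]
    have h3 : (k : ℤ) + k = (m : ℤ) := by rw [hk]; push_cast; ring
    rw [h3, hρz]
  have hwi : w⁻¹ = w := inv_eq_of_mul_eq_one_left hww
  have hw1 : w ≠ 1 := by
    intro h1
    rw [hw, zpow_natCast] at h1
    have h2 := orderOf_dvd_of_pow_eq_one h1
    rw [← hmdef] at h2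
    have h3 : 0 < k := by omega
    have := Nat.le_of_dvd h3 h2
    omega
  have hwz : w * z = z * w := by
    have h1 := zpow_conj hx2 hz2 (k : ℤ)
    rw [← hw, hwi, mul_inv_eq_iff_eq_mul] at h1
    exact h1.symm
  have hwx : w * x = x * w := by
    have h1 := zpow_conj' hx2 hz2 (k : ℤ)
    rw [← hw, hwi, mul_inv_eq_iff_eq_mul] at h1
    exact h1.symm
  rcases Nat.even_or_odd' k with ⟨j, hj | hj⟩
  · refine ⟨w, (x * z) ^ (j : ℤ), hw1, hwx, hwz, ?_, ?_⟩
    · rw [conj_z hx2 hz2, hw, hj]; push_cast; rfl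
    · rw [conj_x hx2 hz2, hw, hj]; push_cast; rfl
  · exfalso
    -- `z w` is conjugate to `x` and commutes with `z`
    have h1 : ((x * z) ^ ((j : ℤ) + 1))⁻¹ * x * (x * z) ^ ((j : ℤ) + 1) = z * w := by
      rw [conj_x hx2 hz2]
      have h2 : x * (x * z) ^ (2 * ((j : ℤ) + 1)) =
          z * (x * z) ^ (-1 : ℤ) * (x * z) ^ (2 * ((j : ℤ) + 1)) := by
        rw [← x_eq hz2 hx2]
      rw [h2, mul_assoc, ← zpow_add, hw, hj]
      congr 2
      push_cast
      ring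
    set g := (x * z) ^ ((j : ℤ) + 1) with hg
    refine no_comm h hxA hx1 hxc hzB hz1 hzc g ?_
    have h2 : x = g * (z * w) * g⁻¹ := (conj_back h1).symm
    have h3 : (z * w) * z = z * (z * w) := by rw [mul_assoc, hwz]
    rw [h2]
    calc g * (z * w) * g⁻¹ * (g * z * g⁻¹) = g * ((z * w) * z) * g⁻¹ := by group
      _ = g * (z * (z * w)) * g⁻¹ := by rw [h3]
      _ = _ := by group

/-- In a minimal configuration the divisible parts do not both contain involutions. -/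
theorem no_involutions (h : Cfg A A0 P B B0 Q) {x z : G} (hx : x ∈ P) (hx2 : x * x = 1)
    (hx1 : x ≠ 1) (hz : z ∈ Q) (hz2 : z * z = 1) (hz1 : z ≠ 1) : False := by
  obtain ⟨x, hx, hx2, hx1, hxc⟩ := exists_central_involution h.hyp.sa hx hx2 hx1
  obtain ⟨z, hz, hz2, hz1, hzc⟩ := exists_central_involution h.hyp.sb hz hz2 hz1
  have hxA : x ∈ A0 := h.hyp.sa.le_A0 hx
  have hzB : z ∈ B0 := h.hyp.sb.le_A0 hz
  obtain ⟨w, e, hw1, hwx, hwz, hez, hex⟩ := exists_w h hxA hx2 hx1 hxc hzB hz2 hz1 hzc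
  -- the key step
  have key : ∀ {A A0 P B B0 Q : Subgroup G} {x z w e : G}, Cfg A A0 P B B0 Q → x ∈ A0 → x ≠ 1 →
      (∀ a ∈ A, a * x = x * a) → z ∈ Q → z * z = 1 → z ≠ 1 → (∀ b ∈ B, b * z = z * b) →
      w ≠ 1 → w * x = x * w → w * z = z * w → e⁻¹ * z * e = z * w →
      (∃ i ∈ A, i ∉ A0 ∧ i * z = z * i) → False := by
    intro A A0 P B B0 Q x z w e h hxA hx1 hxc hz hz2 hz1 hzc hw1 hwx hwz hez hex
    obtain ⟨i, hi, hi0, hiz⟩ := hex
    have hzB : z ∈ B0 := h.hyp.sb.le_A0 hz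
    have hinv := inverts h hzB hz2 hz1 hzc hi hi0 hiz hez hwz hw1
    obtain ⟨c, hc, hcz⟩ := h.hyp.sb.dp.dc.div z hz 2 two_pos
    have h1 := hinv c hc
    have h2 : c⁻¹ * (z * w) * c = w := by
      have h3 : (z * w) * c = c⁻¹ * (z * w) := by
        rw [mul_inv_eq_iff_eq_mul] at h1
        exact h1
      have h3' : c * (z * w) = (z * w) * c⁻¹ := by
        have h4 : c * ((z * w) * c) * c⁻¹ = c * (c⁻¹ * (z * w)) * c⁻¹ := by rw [h3]
        calc c * (z * w) = c * ((z * w) * c) * c⁻¹ := by group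
          _ = c * (c⁻¹ * (z * w)) * c⁻¹ := h4
          _ = _ := by group
      have hz1sq : (z * w) * (z * w) = 1 := by
        rw [← hez]
        calc e⁻¹ * z * e * (e⁻¹ * z * e) = e⁻¹ * (z * z) * e := by group
          _ = 1 := by rw [hz2, mul_one, inv_mul_cancel]
      calc c⁻¹ * (z * w) * c = (z * w) * c * c := by rw [h3]
        _ = (z * w) * (c ^ 2) := by rw [pow_two]; group
        _ = (z * w) * z := by rw [hcz]
        _ = z * (w * z) := by group
        _ = z * (z * w) := by rw [hwz]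
        _ = (z * z) * w := by group
        _ = w := by rw [hz2, one_mul]
    -- `w` is conjugate to `z` and commutes with `x`
    have h5 : w = (e * c)⁻¹ * z * (e * c) := by
      calc w = c⁻¹ * (e⁻¹ * z * e) * c := by rw [hez, h2]
        _ = _ := by group
    refine no_comm h hxA hx1 hxc hzB hz1 hzc (e * c)⁻¹ ?_
    rw [inv_inv, ← h5]
    exact hwx.symm
  obtain ⟨a1, ha1, b1, hb1, hab⟩ := h.hyp.fac w
  -- `b1` commutes with `x`
  have hb1x : b1 * x = x * b1 := by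
    have h1 : b1 = a1⁻¹ * w := by rw [hab]; group
    have c1 : Commute a1 x := hxc a1 ha1
    have c2 : Commute w x := hwx
    rw [h1]
    exact (c1.inv_left.mul_left c2)
  have ha1z : a1 * z = z * a1 := by
    have h1 : a1 = w * b1⁻¹ := by rw [hab]; group
    have c1 : Commute b1 z := hzc b1 hb1
    have c2 : Commute w z := hwz
    rw [h1]
    exact (c2.mul_left c1.inv_left)
  by_cases ha0 : a1 ∈ A0
  · by_cases hb0 : b1 ∈ B0
    · have ha11 : a1 = 1 := by
        by_contra hne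
        exact star h ha0 hne hzB hz1 (le_Nz_zpowers_of_comm hzc) ha1z
      have hb11 : b1 = 1 := by
        by_contra hne
        exact star h.symm hb0 hne hxA hx1 (le_Nz_zpowers_of_comm hxc) hb1x
      apply hw1
      rw [hab, ha11, hb11, one_mul]
    · exact key h.symm hzB hz1 hzc hx hx2 hx1 hxc hw1 hwz hwx hex ⟨b1, hb1, hb0, hb1x⟩
  · exact key h hxA hx1 hxc hz hz2 hz1 hzc hw1 hwx hwz hez ⟨a1, ha1, ha0, ha1z⟩

end H25.AB
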